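import Mathlib

/-!
# The elementary group `EL_3(R)` over an arbitrary ring
-/

set_option autoImplicit false
set_option linter.unusedSectionVars false
set_option linter.unusedSimpArgs false

namespace Pool.Agent.H258.CR

open Matrix

section ring
variable {R : Type} [Ring R]

lemma single_mul_single' {i j p q : Fin 3} (a b : R) :
    (Matrix.single i j a * Matrix.single p q b : Matrix (Fin 3) (Fin 3) R) =
      if j = p then Matrix.single i q (a * b) else 0 := by
  by_cases h : j = p
  · subst h; simp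
  · simp [h]

/-- elementary matrix -/
def el {i j : Fin 3} (h : i ≠ j) (r : R) : (Matrix (Fin 3) (Fin 3) R)ˣ where
  val := 1 + Matrix.single i j r
  inv := 1 - Matrix.single i j r
  val_inv := by
    rw [add_mul, mul_sub, mul_sub, single_mul_single', if_neg h.symm]
    simp
  inv_val := by
    rw [sub_mul, mul_add, mul_add, single_mul_single', if_neg h.symm]
    simp

lemma el_coe {i j : Fin 3} (h : i ≠ j) (r : R) :
    ((el h r : (Matrix (Fin 3) (Fin 3) R)ˣ) : Matrix (Fin 3) (Fin 3) R) =
      1 + Matrix.single i j r := rfl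

lemma el_add {i j : Fin 3} (h : i ≠ j) (r s : R) : el h (r + s) = el h r * el h s := by
  apply Units.ext
  rw [Units.val_mul, el_coe, el_coe, el_coe, add_mul, mul_add, mul_add, single_mul_single',
    if_neg h.symm, Matrix.single_add]
  simp only [one_mul, mul_one, add_zero]
  abel

lemma el_zero {i j : Fin 3} (h : i ≠ j) : el h (0 : R) = 1 := by
  apply Units.ext
  rw [el_coe]; simp

lemma el_neg {i j : Fin 3} (h : i ≠ j) (r : R) : el h (-r) = (el h r)⁻¹ := by
  rw [eq_inv_iff_mul_eq_one, ← el_add, neg_add_cancel, el_zero]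

/-- `e_ij(a) e_jl(b) = e_il(ab) e_jl(b) e_ij(a)` -/
lemma el_comm {i j l : Fin 3} (hij : i ≠ j) (hjl : j ≠ l) (hil : i ≠ l) (a b : R) :
    el hij a * el hjl b = el hil (a * b) * (el hjl b * el hij a) := by
  apply Units.ext
  simp only [Units.val_mul, el_coe, add_mul, mul_add, one_mul, mul_one, single_mul_single',
    if_true, if_neg hij.symm, if_neg hil.symm, if_neg hjl.symm, if_neg hil, mul_zero, add_zero,
    if_neg hjl, if_neg hij]
  abel

lemma el_comm_left {i j l : Fin 3} (hij : i ≠ j) (hil : i ≠ l) (a b : R) :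
    el hil b * el hij a = el hij a * el hil b := by
  apply Units.ext
  simp only [Units.val_mul, el_coe, add_mul, mul_add, one_mul, mul_one, single_mul_single',
    if_neg hij.symm, if_neg hil.symm]
  abel

lemma el_comm_right {i j l : Fin 3} (hjl : j ≠ l) (hil : i ≠ l) (a b : R) :
    el hil b * el hjl a = el hjl a * el hil b := by
  apply Units.ext
  simp only [Units.val_mul, el_coe, add_mul, mul_add, one_mul, mul_one, single_mul_single',
    if_neg hjl.symm, if_neg hil.symm]
  abel

lemma el_smul {i j : Fin 3} (h : i ≠ j) (b : R) (v : Fin 3 → R) :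
    (el h b) • v = v + Pi.single i (b * v j) := by
  show ((el h b : (Matrix (Fin 3) (Fin 3) R)ˣ) : Matrix (Fin 3) (Fin 3) R) • v = _
  rw [el_coe, Matrix.smul_eq_mulVec, add_mulVec, one_mulVec]
  congr 1
  ext1 m
  rw [Matrix.mulVec, dotProduct]
  simp only [Matrix.single_apply, Pi.single_apply]
  by_cases hm : i = m
  · subst hm; simp
  · have : ¬ m = i := fun h => hm h.symm
    simp [hm, this]

variable (R) in
/-- the elementary group `EL_3(R)` -/
def Lam : Subgroup (Matrix (Fin 3) (Fin 3) R)ˣ :=
  Subgroup.closure {g | ∃ (i j : Fin 3) (h : i ≠ j) (r : R), g = el h r}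

lemma el_mem {i j : Fin 3} (h : i ≠ j) (r : R) : el h r ∈ Lam R :=
  Subgroup.subset_closure ⟨i, j, h, r, rfl⟩

/-- elementary element of `Lam R` -/
def ee {i j : Fin 3} (h : i ≠ j) (r : R) : Lam R := ⟨el h r, el_mem h r⟩

lemma ee_comm {i j l : Fin 3} (hij : i ≠ j) (hjl : j ≠ l) (hil : i ≠ l) (a b : R) :
    ee hij a * ee hjl b = ee hil (a * b) * (ee hjl b * ee hij a) :=
  Subtype.ext (el_comm hij hjl hil a b)

lemma ee_comm_left {i j l : Fin 3} (hij : i ≠ j) (hil : i ≠ l) (a b : R) :
    ee hil b * ee hij a = ee hij a * ee hil b := Subtype.ext (el_comm_left hij hil a b)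

lemma ee_comm_right {i j l : Fin 3} (hjl : j ≠ l) (hil : i ≠ l) (a b : R) :
    ee hil b * ee hjl a = ee hjl a * ee hil b := Subtype.ext (el_comm_right hjl hil a b)

lemma ee_neg {i j : Fin 3} (h : i ≠ j) (r : R) : ee h (-r) = (ee h r)⁻¹ :=
  Subtype.ext (el_neg h r)

lemma ee_add {i j : Fin 3} (h : i ≠ j) (r s : R) : ee h (r + s) = ee h r * ee h s :=
  Subtype.ext (el_add h r s)

lemma ee_zero {i j : Fin 3} (h : i ≠ j) : (ee h (0 : R)) = 1 := Subtype.ext (el_zero h)

lemma ee_smul {i j : Fin 3} (h : i ≠ j) (b : R) (v : Fin 3 → R) :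
    (ee h b) • v = v + Pi.single i (b * v j) := el_smul h b v

/-- root subgroup homomorphism -/
def xh {α : Type} [AddCommGroup α] {i j : Fin 3} (h : i ≠ j) (ι : α →+ R) :
    Multiplicative α →* Lam R where
  toFun a := ee h (ι a.toAdd)
  map_one' := by
    show ee h (ι 0) = 1
    rw [map_zero, ee_zero]
  map_mul' a b := by
    show ee h (ι (a.toAdd + b.toAdd)) = _
    rw [map_add, ee_add]

lemma xh_apply {α : Type} [AddCommGroup α] {i j : Fin 3} (h : i ≠ j) (ι : α →+ R)
    (a : Multiplicative α) : xh h ι a = ee h (ι a.toAdd) := rfl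

end ring

section gen
variable {k R : Type} [Field k] [Ring R] [Algebra k R] (x y : R)

variable (k R) in
/-- constants -/
def ιC : k →+ R := (algebraMap k R).toAddMonoidHom

/-- combinations of `1`, `x`, `y` -/
def ι3 (x y : R) : (k × k × k) →+ R where
  toFun p := algebraMap k R p.1 + algebraMap k R p.2.1 * x + algebraMap k R p.2.2 * y
  map_zero' := by simp
  map_add' p q := by simp [add_mul]; abel

lemma ιC_apply (a : k) : ιC k R a = algebraMap k R a := rfl
lemma ι3_apply (p : k × k × k) : ι3 (k := k) x y p =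
  algebraMap k R p.1 + algebraMap k R p.2.1 * x + algebraMap k R p.2.2 * y := rfl

variable {x y} in
lemma Lam_gen (hgen : Algebra.adjoin k {x, y} = (⊤ : Subalgebra k R)) (H : Subgroup (Lam R))
    (h01 : ∀ a, xh (by decide : (0 : Fin 3) ≠ 1) (ιC k R) a ∈ H)
    (h12 : ∀ a, xh (by decide : (1 : Fin 3) ≠ 2) (ιC k R) a ∈ H)
    (h20 : ∀ a, xh (by decide : (2 : Fin 3) ≠ 0) (ι3 (k := k) x y) a ∈ H) (g : Lam R) : g ∈ H := by
  have hcomm : ∀ {i j l : Fin 3} (hij : i ≠ j) (hjl : j ≠ l) (hil : i ≠ l) (a b : R),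
      ee hij a ∈ H → ee hjl b ∈ H → ee hil (a * b) ∈ H := by
    intro i j l hij hjl hil a b ha hb
    have := ee_comm hij hjl hil a b
    have h2 : ee hil (a * b) = ee hij a * ee hjl b * (ee hjl b * ee hij a)⁻¹ := by
      rw [this]; group
    rw [h2]
    exact H.mul_mem (H.mul_mem ha hb) (H.inv_mem (H.mul_mem hb ha))
  have spread : ∀ z : R, ee (by decide : (2 : Fin 3) ≠ 0) z ∈ H →
      (∀ a : k, ee (by decide : (0 : Fin 3) ≠ 1) (algebraMap k R a) ∈ H) →
      (∀ a : k, ee (by decide : (1 : Fin 3) ≠ 2) (algebraMap k R a) ∈ H) →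
      (∀ a : k, ee (by decide : (0 : Fin 3) ≠ 2) (algebraMap k R a) ∈ H) →
      ∀ {i j : Fin 3} (hij : i ≠ j), ee hij z ∈ H := by
    intro z k20 m01 m12 m02
    have k10 : ee (by decide : (1 : Fin 3) ≠ 0) z ∈ H := by
      simpa using hcomm (by decide) (by decide) (by decide) _ _ (m12 1) k20
    have k21 : ee (by decide : (2 : Fin 3) ≠ 1) z ∈ H := by
      simpa using hcomm (by decide) (by decide) (by decide) _ _ k20 (m01 1)
    have k01 : ee (by decide : (0 : Fin 3) ≠ 1) z ∈ H := by
      simpa using hcomm (by decide) (by decide) (by decide) _ _ (m02 1) k21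
    have k12 : ee (by decide : (1 : Fin 3) ≠ 2) z ∈ H := by
      simpa using hcomm (by decide) (by decide) (by decide) _ _ k10 (m02 1)
    have k02 : ee (by decide : (0 : Fin 3) ≠ 2) z ∈ H := by
      simpa using hcomm (by decide) (by decide) (by decide) _ _ k01 (m12 1)
    intro i j hij
    fin_cases i <;> fin_cases j <;> first
      | exact absurd rfl hij | exact k01 | exact k12 | exact k20 | exact k02 | exact k10
      | exact k21
  have m01 : ∀ a : k, ee (by decide : (0 : Fin 3) ≠ 1) (algebraMap k R a) ∈ H :=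
    fun a => h01 (Multiplicative.ofAdd a)
  have m12 : ∀ a : k, ee (by decide : (1 : Fin 3) ≠ 2) (algebraMap k R a) ∈ H :=
    fun a => h12 (Multiplicative.ofAdd a)
  have m02 : ∀ a : k, ee (by decide : (0 : Fin 3) ≠ 2) (algebraMap k R a) ∈ H := by
    intro a
    simpa using hcomm (by decide) (by decide) (by decide) _ _ (m01 a) (m12 1)
  have m20 : ∀ a b c : k, ee (by decide : (2 : Fin 3) ≠ 0)
      (algebraMap k R a + algebraMap k R b * x + algebraMap k R c * y) ∈ H :=
    fun a b c => h20 (Multiplicative.ofAdd (a, b, c))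
  have hall : ∀ r : R, ∀ {i j : Fin 3} (hij : i ≠ j), ee hij r ∈ H := by
    intro r
    have hr : r ∈ Algebra.adjoin k {x, y} := by rw [hgen]; trivial
    induction hr using Algebra.adjoin_induction with
    | mem z hz =>
      rcases hz with rfl | hz
      · intro i j hij
        exact spread _ (by simpa using m20 0 1 0) m01 m12 m02 hij
      · rw [Set.mem_singleton_iff] at hz
        subst hz
        intro i j hij
        exact spread _ (by simpa using m20 0 0 1) m01 m12 m02 hij
    | algebraMap c =>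
      intro i j hij
      exact spread _ (by simpa using m20 c 0 0) m01 m12 m02 hij
    | add a b _ _ ha hb =>
      intro i j hij
      rw [ee_add]; exact H.mul_mem (ha hij) (hb hij)
    | mul a b _ _ ha hb =>
      intro i j hij
      obtain ⟨l, hil, hlj⟩ : ∃ l : Fin 3, i ≠ l ∧ l ≠ j := by
        revert i j; decide
      exact hcomm hil hlj hij _ _ (ha hil) (hb hlj)
  have hle : Lam R ≤ H.map (Lam R).subtype := by
    unfold Lam
    rw [Subgroup.closure_le]
    rintro _ ⟨i, j, h, r, rfl⟩
    exact ⟨_, hall r h, rfl⟩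
  obtain ⟨z, hz, hzg⟩ := hle g.2
  have : z = g := Subtype.ext hzg
  rwa [← this]

end gen

end Pool.Agent.H258.CR
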