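import Mathlib

/-!
# Rings with matrix units and entries
-/

set_option autoImplicit false

namespace Pool.Agent.H258.CR

/-- a `k`-algebra of column-finite matrices indexed by `ℕ` which contains the matrix units and has
an augmentation -/
structure MU (k R : Type) [Field k] [Ring R] [Algebra k R] where
  e : ℕ → ℕ → R
  ent : R → ℕ → ℕ → k
  aug : R →+* k
  aug_alg : ∀ c, aug (algebraMap k R c) = c
  e_mul : ∀ a b c d, e a b * e c d = if b = c then e a d else 0
  ent_zero : ∀ a b, ent 0 a b = 0
  ent_add : ∀ r s a b, ent (r + s) a b = ent r a b + ent s a b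
  ext : ∀ {r s}, (∀ a b, ent r a b = ent s a b) → r = s
  ent_finite : ∀ r b, ∃ n, ∀ a, n ≤ a → ent r a b = 0
  ent_e : ∀ a b c d, ent (e a b) c d = if a = c ∧ b = d then 1 else 0
  ent_e_mul : ∀ a b r c d, ent (e a b * r) c d = if a = c then ent r b d else 0
  ent_mul_e : ∀ a b r c d, ent (r * e a b) c d = if b = d then ent r c a else 0
  ent_smul : ∀ c r a b, ent (c • r) a b = c * ent r a b
  ent_alg : ∀ c a b, ent (algebraMap k R c) a b = if a = b then c else 0

namespace MU
variable {k R : Type} [Field k] [Ring R] [Algebra k R] (U : MU k R)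

lemma e_mul_mul_e (a b c d : ℕ) (r : R) : U.e a b * r * U.e c d = U.ent r b c • U.e a d := by
  apply U.ext
  intro p q
  rw [U.ent_mul_e, U.ent_e_mul, U.ent_smul, U.ent_e]
  by_cases h1 : a = p <;> by_cases h2 : d = q <;> simp [h1, h2]

lemma smul_mul_e (γ : k) (a b c d : ℕ) : U.e a b * γ • U.e c d =
    if b = c then γ • U.e a d else 0 := by
  rw [mul_smul_comm, U.e_mul]
  split_ifs
  · rfl
  · rw [smul_zero]

lemma ent_sum {ι : Type} (s : Finset ι) (f : ι → R) (a b : ℕ) :
    U.ent (∑ i ∈ s, f i) a b = ∑ i ∈ s, U.ent (f i) a b := by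
  classical
  induction s using Finset.induction_on with
  | empty => simp [U.ent_zero]
  | insert i s hi ih => rw [Finset.sum_insert hi, Finset.sum_insert hi, U.ent_add, ih]

end MU

end Pool.Agent.H258.CR
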