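import Mathlib

/-!
# The ring generated by the two shifts

`J k` is the algebra generated by the left shift and the right shift on the finitely supported
sequences (with the augmentation as a second component). It contains all matrix units.
-/

set_option autoImplicit false

namespace Pool.Agent.H258.CR

open Finsupp

variable (k : Type) [Field k]

/-- the operators on finitely supported sequences -/
abbrev Op := Module.End k (ℕ →₀ k)

noncomputable instance instRingOp : Ring (Op k) := Module.End.instRing

/-- left shift -/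
noncomputable def shL : Op k :=
  Finsupp.linearCombination k (fun n : ℕ => match n with
    | 0 => (0 : ℕ →₀ k)
    | n + 1 => single n 1)

/-- right shift -/
noncomputable def shR : Op k := Finsupp.linearCombination k (fun n : ℕ => single (n + 1) 1)

/-- matrix units -/
noncomputable def mu (a b : ℕ) : Op k :=
  Finsupp.linearCombination k (fun n : ℕ => if n = b then single a 1 else 0)

lemma shL_zero : shL k (single 0 1) = 0 := by simp [shL]
lemma shL_succ (n : ℕ) : shL k (single (n + 1) 1) = single n 1 := by simp [shL]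
lemma shR_single (n : ℕ) : shR k (single n 1) = single (n + 1) 1 := by simp [shR]
lemma mu_single (a b n : ℕ) : mu k a b (single n 1) = if n = b then single a 1 else 0 := by
  simp [mu]

variable {k}

lemma op_ext {f g : Op k} (h : ∀ n, f (single n 1) = g (single n 1)) : f = g := by
  apply Finsupp.lhom_ext
  intro n c
  have h1 : (single n c : ℕ →₀ k) = c • single n 1 := by simp
  rw [h1, map_smul, map_smul, h]

lemma mu_apply (a b : ℕ) (v : ℕ →₀ k) : mu k a b v = single a (v b) := by
  have : mu k a b = (Finsupp.lsingle a).comp (Finsupp.lapply b) := by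
    apply op_ext
    intro n
    rw [mu_single]
    by_cases h : n = b
    · subst h; simp
    · simp [h]
  rw [this]; simp

lemma mu_mul (a b c d : ℕ) : mu k a b * mu k c d = if b = c then mu k a d else 0 := by
  apply op_ext
  intro n
  show mu k a b (mu k c d (single n 1)) = _
  rw [mu_apply, mu_apply]
  by_cases h : b = c
  · subst h; simp [mu_apply]
  · simp [h]

variable (k) in
/-- the big algebra -/
abbrev Big := Op k × k

noncomputable instance instRingBig : Ring (Big k) := Prod.instRing

variable (k) in
noncomputable def bL : Big k := (shL k, 1)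
variable (k) in
noncomputable def bR : Big k := (shR k, 1)

variable (k) in
/-- the algebra generated by the two shifts -/
noncomputable def Jsub : Subalgebra k (Big k) := Algebra.adjoin k {bL k, bR k}

variable (k) in
/-- the algebra generated by the two shifts -/
noncomputable abbrev J := Jsub k

noncomputable instance instRingJ : Ring (J k) := Subalgebra.toRing (Jsub k)

variable (k) in
noncomputable def jL : J k := ⟨bL k, Algebra.subset_adjoin (by simp)⟩
variable (k) in
noncomputable def jR : J k := ⟨bR k, Algebra.subset_adjoin (by simp)⟩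

lemma J_gen : Algebra.adjoin k {jL k, jR k} = (⊤ : Subalgebra k (J k)) := by
  have h := Algebra.adjoin_adjoin_coe_preimage (R := k) (s := {bL k, bR k})
  have h2 : (((↑) : Algebra.adjoin k {bL k, bR k} → Big k) ⁻¹' {bL k, bR k}) =
      ({jL k, jR k} : Set (J k)) := by
    ext x
    simp only [Set.mem_preimage, Set.mem_insert_iff, Set.mem_singleton_iff]
    constructor
    · rintro (h | h)
      · exact Or.inl (Subtype.ext h)
      · exact Or.inr (Subtype.ext h)
    · rintro (h | h)
      · exact Or.inl (congrArg Subtype.val h)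
      · exact Or.inr (congrArg Subtype.val h)
  rw [← h2]
  exact h

lemma shR_pow (a n : ℕ) : ((shR k) ^ a) (single n 1) = single (n + a) 1 := by
  induction a generalizing n with
  | zero => simp
  | succ a ih =>
    rw [pow_succ]
    show ((shR k) ^ a) (shR k (single n 1)) = _
    rw [shR_single, ih]
    congr 1; omega

lemma shL_pow (b n : ℕ) : ((shL k) ^ b) (single n 1) = if n < b then 0 else single (n - b) 1 := by
  induction b generalizing n with
  | zero => simp
  | succ b ih =>
    rw [pow_succ]
    show ((shL k) ^ b) (shL k (single n 1)) = _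
    cases n with
    | zero => rw [shL_zero, map_zero]; simp
    | succ n =>
      rw [shL_succ, ih]
      by_cases h : n < b
      · rw [if_pos h, if_pos (by omega)]
      · rw [if_neg h, if_neg (by omega)]
        congr 1; omega

lemma mu_eq (a b : ℕ) : (mu k a b, (0 : k)) = bR k ^ a * (1 - bR k * bL k) * bL k ^ b := by
  apply Prod.ext
  · apply op_ext
    intro n
    show _ = ((shR k) ^ a) ((1 - shR k * shL k : Op k) (((shL k) ^ b) (single n 1)))
    rw [shL_pow, mu_single]
    by_cases h : n < b
    · rw [if_pos h, if_neg (by omega), map_zero, map_zero]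
    · rw [if_neg h]
      by_cases h2 : n = b
      · subst h2
        rw [if_pos rfl, Nat.sub_self]
        have : (1 - shR k * shL k : Op k) (single 0 1) = single 0 1 := by
          show single 0 1 - shR k (shL k (single 0 1)) = _
          rw [shL_zero, map_zero, sub_zero]
        rw [this, shR_pow, zero_add]
      · rw [if_neg h2]
        obtain ⟨m, hm⟩ : ∃ m, n - b = m + 1 := ⟨n - b - 1, by omega⟩
        have : (1 - shR k * shL k : Op k) (single (m + 1) 1) = 0 := by
          show single (m + 1) 1 - shR k (shL k (single (m + 1) 1)) = _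
          rw [shL_succ, shR_single, sub_self]
        rw [hm, this, map_zero]
  · simp [bL, bR]

/-- the matrix units of `J k` -/
noncomputable def e (a b : ℕ) : J k := ⟨(mu k a b, 0), by
  rw [mu_eq]
  have h1 : bL k ∈ Algebra.adjoin k {bL k, bR k} := Algebra.subset_adjoin (by simp)
  have h2 : bR k ∈ Algebra.adjoin k {bL k, bR k} := Algebra.subset_adjoin (by simp)
  exact mul_mem (mul_mem (pow_mem h2 _) (sub_mem (one_mem _) (mul_mem h2 h1))) (pow_mem h1 _)⟩

lemma e_mul (a b c d : ℕ) : (e a b * e c d : J k) = if b = c then e a d else 0 := by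
  apply Subtype.ext
  have h : ((e a b * e c d : J k) : Big k) = (mu k a b * mu k c d, 0 * 0) := rfl
  rw [h, mu_mul]
  by_cases h : b = c
  · simp [h, e]
  · simp [h]

lemma e_mul_same (a b d : ℕ) : (e a b * e b d : J k) = e a d := by rw [e_mul, if_pos rfl]

/-- the augmentation -/
noncomputable def aug : J k →+* k := (RingHom.snd (Op k) k).comp (Jsub k).val.toRingHom

lemma aug_e (a b : ℕ) : aug (e a b : J k) = 0 := rfl

lemma aug_algebraMap (c : k) : aug (algebraMap k (J k) c) = c := rfl

/-- the sum of the coordinates -/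
noncomputable def sm : (ℕ →₀ k) →ₗ[k] k := Finsupp.linearCombination k (fun _ : ℕ => (1 : k))

lemma sm_single (n : ℕ) : sm (single n 1 : ℕ →₀ k) = 1 := by simp [sm]

/-- the sequences which vanish before `n` -/
noncomputable def Tail (n : ℕ) : Submodule k (ℕ →₀ k) := Finsupp.supported k k {m | n ≤ m}

lemma Tail_mono {m n : ℕ} (h : m ≤ n) : (Tail n : Submodule k (ℕ →₀ k)) ≤ Tail m :=
  Finsupp.supported_mono (fun _ hx => h.trans hx)

/-- eventual behaviour -/
def Ev (r : Big k) : Prop := ∃ N, ∀ n, N ≤ n → ∀ v ∈ (Tail n : Submodule k (ℕ →₀ k)),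
    sm (r.1 v) = r.2 * sm v ∧ r.1 v ∈ (Tail (n - N) : Submodule k (ℕ →₀ k))

lemma ev_of_basis (r : Big k) (N : ℕ) (h : ∀ m, N ≤ m → sm (r.1 (single m 1)) = r.2 ∧
    r.1 (single m 1) ∈ (Tail (m - N) : Submodule k (ℕ →₀ k))) : Ev r := by
  refine ⟨N, fun n hn v hv => ?_⟩
  unfold Tail at hv
  rw [Finsupp.supported_eq_span_single] at hv
  induction hv using Submodule.span_induction with
  | mem x hx =>
    obtain ⟨m, hm, rfl⟩ := hx
    have hm' : n ≤ m := hm
    obtain ⟨h1, h2⟩ := h m (hn.trans hm')
    refine ⟨by rw [h1, sm_single, mul_one], Tail_mono (by omega) h2⟩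
  | zero => simp
  | add x y _ _ hx hy =>
    refine ⟨?_, ?_⟩
    · rw [map_add, map_add, map_add, hx.1, hy.1]; ring
    · rw [map_add]; exact add_mem hx.2 hy.2
  | smul c x _ hx =>
    refine ⟨?_, ?_⟩
    · rw [map_smul, map_smul, map_smul, hx.1, smul_eq_mul, smul_eq_mul]; ring
    · rw [map_smul]; exact Submodule.smul_mem _ _ hx.2

lemma ev_J (r : J k) : Ev r.1 := by
  obtain ⟨r, hr⟩ := r
  show Ev r
  have hr' : r ∈ Algebra.adjoin k {bL k, bR k} := hr
  clear hr
  induction hr' using Algebra.adjoin_induction with
  | mem x hx =>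
    rcases hx with rfl | hx
    · apply ev_of_basis _ 1
      intro m hm
      obtain ⟨m, rfl⟩ : ∃ m', m = m' + 1 := ⟨m - 1, by omega⟩
      show sm (shL k (single (m + 1) 1)) = 1 ∧ shL k (single (m + 1) 1) ∈ _
      rw [shL_succ]
      refine ⟨sm_single _, Finsupp.single_mem_supported k 1 ?_⟩
      show m + 1 - 1 ≤ m
      omega
    · rw [Set.mem_singleton_iff] at hx
      subst hx
      apply ev_of_basis _ 0
      intro m _
      show sm (shR k (single m 1)) = 1 ∧ shR k (single m 1) ∈ _
      rw [shR_single]
      refine ⟨sm_single _, Finsupp.single_mem_supported k 1 ?_⟩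
      show m - 0 ≤ m + 1
      omega
  | algebraMap c =>
    refine ⟨0, fun n _ v hv => ?_⟩
    have h1 : (algebraMap k (Big k) c).1 v = c • v := rfl
    have h2 : (algebraMap k (Big k) c).2 = c := rfl
    rw [h1, h2]
    refine ⟨by rw [map_smul, smul_eq_mul], Submodule.smul_mem _ _ hv⟩
  | add x y _ _ hx hy =>
    obtain ⟨N, hN⟩ := hx
    obtain ⟨M, hM⟩ := hy
    refine ⟨max N M, fun n hn v hv => ?_⟩
    obtain ⟨h1, h2⟩ := hN n ((le_max_left _ _).trans hn) v hv
    obtain ⟨h3, h4⟩ := hM n ((le_max_right _ _).trans hn) v hv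
    have e1 : (x + y).1 v = x.1 v + y.1 v := rfl
    have e2 : (x + y).2 = x.2 + y.2 := rfl
    rw [e1, e2]
    refine ⟨by rw [map_add, h1, h3]; ring, add_mem (Tail_mono ?_ h2) (Tail_mono ?_ h4)⟩
    · have := le_max_left N M; omega
    · have := le_max_right N M; omega
  | mul x y _ _ hx hy =>
    obtain ⟨N, hN⟩ := hx
    obtain ⟨M, hM⟩ := hy
    refine ⟨N + M, fun n hn v hv => ?_⟩
    obtain ⟨h3, h4⟩ := hM n (by omega) v hv
    obtain ⟨h1, h2⟩ := hN (n - M) (by omega) (y.1 v) h4
    have e1 : (x * y).1 v = x.1 (y.1 v) := rfl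
    have e2 : (x * y).2 = x.2 * y.2 := rfl
    rw [e1, e2]
    refine ⟨by rw [h1, h3]; ring, Tail_mono (by omega) h2⟩

/-- the second component is determined by the first -/
lemma J_zero_of_fst (r : J k) (h : r.1.1 = 0) : r = 0 := by
  obtain ⟨N, hN⟩ := ev_J r
  have h1 := (hN N le_rfl (single N 1) (Finsupp.single_mem_supported k 1 (le_refl N))).1
  rw [h, LinearMap.zero_apply, map_zero, sm_single, mul_one] at h1
  apply Subtype.ext
  exact Prod.ext h h1.symm

/-- entries of an element of `J k` -/
noncomputable def ent (r : J k) (a b : ℕ) : k := (r.1.1 (single b 1)) a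

lemma ent_zero (a b : ℕ) : ent (0 : J k) a b = 0 := rfl

lemma ent_add (r s : J k) (a b : ℕ) : ent (r + s) a b = ent r a b + ent s a b := rfl

lemma ent_sub (r s : J k) (a b : ℕ) : ent (r - s) a b = ent r a b - ent s a b := rfl

lemma J_ext {r s : J k} (h : ∀ a b, ent r a b = ent s a b) : r = s := by
  rw [← sub_eq_zero]
  apply J_zero_of_fst
  apply op_ext
  intro b
  ext a
  have h1 := h a b
  have h2 : ent (r - s) a b = 0 := by rw [ent_sub, h1, sub_self]
  exact h2

/-- columns are finite -/
lemma ent_finite (r : J k) (b : ℕ) : ∃ n, ∀ a, n ≤ a → ent r a b = 0 := by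
  obtain ⟨n, hn⟩ := (r.1.1 (single b 1)).support.bddAbove
  refine ⟨n + 1, fun a ha => ?_⟩
  by_contra h
  have h1 : a ∈ (r.1.1 (single b 1)).support := Finsupp.mem_support_iff.2 h
  have := hn h1
  omega

lemma ent_e (a b c d : ℕ) : ent (e a b : J k) c d = if a = c ∧ b = d then 1 else 0 := by
  show (mu k a b (single d 1)) c = _
  rw [mu_apply, Finsupp.single_apply, Finsupp.single_apply]
  by_cases h1 : a = c <;> by_cases h2 : d = b
  · simp [h1, h2]
  · simp [h1, h2, Ne.symm h2]
  · simp [h1]
  · simp [h1]

lemma ent_e_mul (a b : ℕ) (r : J k) (c d : ℕ) :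
    ent (e a b * r) c d = if a = c then ent r b d else 0 := by
  show (mu k a b (r.1.1 (single d 1))) c = _
  rw [mu_apply, Finsupp.single_apply]
  rfl

lemma ent_mul_e (a b : ℕ) (r : J k) (c d : ℕ) :
    ent (r * e a b) c d = if b = d then ent r c a else 0 := by
  show (r.1.1 (mu k a b (single d 1))) c = _
  rw [mu_apply]
  by_cases h : b = d
  · subst h; simp; rfl
  · have : (single d (1 : k) : ℕ →₀ k) b = 0 := by
      rw [Finsupp.single_apply, if_neg (Ne.symm h)]
    rw [this]
    simp [h]

lemma ent_smul (c : k) (r : J k) (a b : ℕ) : ent (c • r) a b = c * ent r a b := rfl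

lemma ent_algebraMap (c : k) (a b : ℕ) :
    ent (algebraMap k (J k) c) a b = if a = b then c else 0 := by
  show (c • (single b 1 : ℕ →₀ k)) a = _
  rw [Finsupp.smul_apply, Finsupp.single_apply]
  by_cases h : b = a
  · simp [h]
  · simp [h, Ne.symm h]

lemma e_mul_mul_e (a b c d : ℕ) (r : J k) : e a b * r * e c d = ent r b c • e a d := by
  apply J_ext
  intro p q
  rw [ent_mul_e, ent_e_mul, ent_smul, ent_e]
  by_cases h1 : a = p <;> by_cases h2 : d = q <;> simp [h1, h2]

end Pool.Agent.H258.CR
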