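import Mathlib
import Pool.Graph.R_seed8.H197R3.Tw
import Pool.Graph.R_seed8.Y276.Rig.Alg
import Pool.Graph.R_seed8.Y276.Rig.T2

/-!
# The abelian groups `M_p` and the twists
-/

set_option autoImplicit false
set_option linter.unusedSectionVars false
set_option linter.unusedSimpArgs false

namespace Pool.Agent.H258.CR

open Pool.Agent.H197R3 Pool.Agent.Y276.Rig
open scoped ComplexConjugate
open SemidirectProduct

section mp
variable {A : Type} [AddCommGroup A] (p : A →+ A)

/-- the generators of order four of `M_p` -/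
noncomputable def up (a : A) : XX A → Circle := fun x => tw2 (x.1 (p a)) * sg (x.2.1 a)

/-- the group `M_p` -/
noncomputable def Mp : Subgroup (XX A → Circle) :=
  Subgroup.closure (Set.range gg ∪ Set.range (up p))

lemma gg_memp (a : A) : gg a ∈ Mp p := Subgroup.subset_closure (Or.inl ⟨a, rfl⟩)
lemma up_mem (a : A) : up p a ∈ Mp p := Subgroup.subset_closure (Or.inr ⟨a, rfl⟩)

lemma up_sq (a : A) : up p a * up p a = gg (p a) := by
  funext x
  simp only [up, gg, Pi.mul_apply]
  rw [mul_mul_mul_comm, tw_sq, sg_sq, mul_one]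

lemma gg_sq (a : A) : (gg a * gg a : XX A → Circle) = 1 := by
  funext x
  exact sg_sq _

lemma gg_add (a b : A) : (gg (a + b) : XX A → Circle) = gg a * gg b := by
  funext x
  simp only [gg, Pi.mul_apply, map_add, sg_add]

lemma gg_zero : (gg (0 : A) : XX A → Circle) = 1 := by
  funext x
  simp [gg, sg_zero]

lemma Mp_char {m : XX A → Circle} (hm : m ∈ Mp p) (v v' : A →+ ZMod 2) (Q Q' : Quad A) :
    m (v + v', Q + Q' + vv (v.comp p) (v'.comp p)) = m (v, Q) * m (v', Q') := by
  induction hm using Subgroup.closure_induction with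
  | mem z hz =>
    rcases hz with ⟨a, rfl⟩ | ⟨a, rfl⟩
    · simp only [gg, AddMonoidHom.add_apply, sg_add]
    · simp only [up, AddMonoidHom.add_apply]
      have e : (Q + Q' + vv (v.comp p) (v'.comp p)).1 a = Q.1 a + Q'.1 a + v (p a) * v' (p a) := rfl
      rw [e, sg_add, sg_add]
      have h1 := tw_add (v (p a)) (v' (p a))
      calc tw2 (v (p a) + v' (p a)) * (sg (Q.1 a) * sg (Q'.1 a) * sg (v (p a) * v' (p a)))
          = (tw2 (v (p a) + v' (p a)) * sg (v (p a) * v' (p a))) * (sg (Q.1 a) * sg (Q'.1 a)) := by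
            rw [mul_comm (sg (Q.1 a) * sg (Q'.1 a)), mul_assoc]
        _ = _ := by rw [← h1, mul_mul_mul_comm]
  | one => simp
  | mul p q _ _ hp hq => simp only [Pi.mul_apply, hp, hq]; exact mul_mul_mul_comm _ _ _ _
  | inv p _ hp => simp only [Pi.inv_apply, hp]; exact mul_inv _ _

lemma Mp_exists {m : XX A → Circle} (hm : m ∈ Mp p) (h1 : m ≠ 1) :
    ∃ x₀, m x₀ ≠ 1 ∧ ∀ x, m (x + x₀) = m x * m x₀ := by
  by_cases hA : ∃ Q₀, m (0, Q₀) ≠ 1
  · obtain ⟨Q₀, hQ⟩ := hA
    refine ⟨(0, Q₀), hQ, ?_⟩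
    rintro ⟨v, Q⟩
    have := Mp_char p hm v 0 Q Q₀
    rw [AddMonoidHom.zero_comp, vv_zero_right, add_zero, add_zero] at this
    rw [← this, Prod.mk_add_mk, add_zero]
  · push Not at hA
    have hred : ∀ v Q, m (v, Q) = m (v, 0) := by
      intro v Q
      have := Mp_char p hm 0 v Q 0
      rw [AddMonoidHom.zero_comp, vv_zero_left, add_zero, add_zero, zero_add, hA, one_mul] at this
      exact this
    have : ∃ x, m x ≠ 1 := by
      by_contra hcon
      push Not at hcon
      exact h1 (funext hcon)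
    obtain ⟨⟨v₀, Q₀⟩, hv⟩ := this
    rw [hred] at hv
    refine ⟨(v₀, 0), hv, ?_⟩
    rintro ⟨v, Q⟩
    rw [← Mp_char p hm v v₀ Q 0, Prod.mk_add_mk, hred _ (Q + 0),
      hred _ (Q + 0 + vv (v.comp p) (v₀.comp p))]

lemma zz_up_apply (a b : A) (x : XX A) : (up p a * up p b * (up p (a + b))⁻¹) x =
    sg (x.1 (p a) * x.1 (p b) + (x.2.1 a + x.2.1 b + x.2.1 (a + b))) := by
  simp only [up, Pi.mul_apply, Pi.inv_apply, map_add]
  have h1 := tw_add (x.1 (p a)) (x.1 (p b))
  have h2 : (sg (x.2.1 (a + b)))⁻¹ = sg (x.2.1 (a + b)) := by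
    rw [inv_eq_iff_mul_eq_one]; exact sg_sq _
  rw [sg_add, sg_add, sg_add, mul_inv, h2]
  calc tw2 (x.1 (p a)) * sg (x.2.1 a) * (tw2 (x.1 (p b)) * sg (x.2.1 b)) *
      ((tw2 (x.1 (p a) + x.1 (p b)))⁻¹ * sg (x.2.1 (a + b)))
      = (tw2 (x.1 (p a)) * tw2 (x.1 (p b))) * (tw2 (x.1 (p a) + x.1 (p b)))⁻¹ *
        (sg (x.2.1 a) * sg (x.2.1 b) * sg (x.2.1 (a + b))) := by
        simp only [mul_comm, mul_left_comm, mul_assoc]
    _ = _ := by
        rw [h1, mul_comm (tw2 (x.1 (p a) + x.1 (p b))), mul_inv_cancel_right]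

lemma zz_up_add (a a' b : A) :
    (up p (a + a') * up p b * (up p (a + a' + b))⁻¹ : XX A → Circle) =
    (up p a * up p b * (up p (a + b))⁻¹) * (up p a' * up p b * (up p (a' + b))⁻¹) := by
  funext x
  rw [Pi.mul_apply (up p a * up p b * (up p (a + b))⁻¹), zz_up_apply, zz_up_apply, zz_up_apply,
    ← sg_add]
  congr 1
  have h := quad_rel x.2 a a' b
  have h2 : (2 : ZMod 2) = 0 := rfl
  simp only [map_add]
  linear_combination h - (x.2.1 a + x.2.1 a' + x.2.1 b + x.2.1 (a + b) + x.2.1 (a' + b)) * h2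

variable {Λ : Type} [Group Λ] [DistribMulAction Λ A]

lemma inv_Mp (hp : ∀ (g : Λ) (a : A), p (g • a) = g • p a) : Inv' Λ (Mp p) := by
  intro g m hm
  induction hm using Subgroup.closure_induction with
  | mem z hz =>
    rcases hz with ⟨a, rfl⟩ | ⟨a, rfl⟩
    · exact gg_memp p (g • a)
    · have : (fun x => up p a (pb g x)) = up p (g • a) := by
        funext x
        show tw2 (x.1 (g • p a)) * sg (x.2.1 (g • a)) = tw2 (x.1 (p (g • a))) * sg (x.2.1 (g • a))
        rw [hp]
      rw [this]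
      exact up_mem p (g • a)
  | one => exact one_mem _
  | mul p q _ _ hp hq => exact mul_mem hp hq
  | inv p _ hp => exact inv_mem hp

end mp

section tw
variable {A : Type} [AddCommGroup A] (p : A →+ A)

/-- the function attached to `m ∈ M_p` is in the range of `ev M₂` -/
lemma Mp_range (m : Mp p) : evHom (Mp p) m ∈ (ev (M2 A)).range ∧
    evHom (Mp p) m⁻¹ ∈ (ev (M2 A)).range := by
  have hg : ∀ a : A, (fun x => ((gg a x : Circle) : ℂ)) ∈ (ev (M2 A)).range := by
    intro a
    refine ⟨MonoidAlgebra.single ⟨gg a, gg_mem a⟩ 1, ?_⟩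
    funext x; exact (ev_single_apply _ _ _ _).trans (one_mul _)
  have hh' : ∀ a : A, (fun x => ((hh a x : Circle) : ℂ)) ∈ (ev (M2 A)).range := by
    intro a
    refine ⟨MonoidAlgebra.single ⟨hh a, hh_mem a⟩ 1, ?_⟩
    funext x; exact (ev_single_apply _ _ _ _).trans (one_mul _)
  have hc : ∀ c : ℂ, (fun _ : XX A => c) ∈ (ev (M2 A)).range := fun c =>
    (ev (M2 A)).range.algebraMap_mem c
  obtain ⟨m, hm⟩ := m
  induction hm using Subgroup.closure_induction with
  | mem z hz =>
    rcases hz with ⟨a, rfl⟩ | ⟨a, rfl⟩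
    · refine ⟨hg a, ?_⟩
      have h1 := hg a
      have h2 : (evHom (Mp p) (⟨gg a, gg_memp p a⟩ : Mp p)⁻¹) =
          (fun x => ((gg a x : Circle) : ℂ)) := by
        funext x
        show (((gg a x)⁻¹ : Circle) : ℂ) = _
        have h2 : (gg a x)⁻¹ = gg a x := by
          rw [inv_eq_iff_mul_eq_one]; exact sg_sq _
        rw [h2]
      rw [h2]
      exact h1
    constructor
    · have h1 := mul_mem (add_mem (hc ((1 + Complex.I) / 2))
        (mul_mem (hc ((1 - Complex.I) / 2)) (hg (p a)))) (hh' a)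
      convert h1 using 1
      funext x
      show ((tw2 (x.1 (p a)) * sg (x.2.1 a) : Circle) : ℂ) = _
      rw [Circle.coe_mul, tw_expand]; rfl
    · have h1 := mul_mem (add_mem (hc ((1 - Complex.I) / 2))
        (mul_mem (hc ((1 + Complex.I) / 2)) (hg (p a)))) (hh' a)
      convert h1 using 1
      funext x
      show (((tw2 (x.1 (p a)) * sg (x.2.1 a))⁻¹ : Circle) : ℂ) = _
      have h2 : (sg (x.2.1 a))⁻¹ = sg (x.2.1 a) := by
        rw [inv_eq_iff_mul_eq_one]; exact sg_sq _
      rw [mul_inv, h2, Circle.coe_mul, tw_inv_expand]; rfl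
  | one =>
    have : evHom (Mp p) (⟨1, one_mem _⟩ : Mp p) = 1 := map_one (evHom (Mp p))
    constructor
    · rw [this]; exact one_mem _
    · have h2 : (⟨1, one_mem _⟩ : Mp p)⁻¹ = 1 := inv_one
      rw [h2, map_one]; exact one_mem _
  | mul q r hp' hq' hp hq =>
    have e : (⟨q * r, mul_mem hp' hq'⟩ : Mp p) = ⟨q, hp'⟩ * ⟨r, hq'⟩ := rfl
    constructor
    · rw [e, map_mul]; exact mul_mem hp.1 hq.1
    · rw [e, mul_inv, map_mul]; exact mul_mem hp.2 hq.2
  | inv q hp' hp =>
    have e : (⟨q⁻¹, inv_mem hp'⟩ : Mp p) = (⟨q, hp'⟩ : Mp p)⁻¹ := rfl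
    rw [e, inv_inv]
    exact ⟨hp.2, hp.1⟩

lemma Mp_ex (m : Mp p) : ∃ y, ev (M2 A) y = evHom (Mp p) m := (Mp_range p m).1

/-- the twist on the abelian parts -/
noncomputable def thP : Mp p →* MonoidAlgebra ℂ (M2 A) where
  toFun m := Classical.choose (Mp_ex p m)
  map_one' := by
    apply ev_inj
    refine (Classical.choose_spec (Mp_ex p (1 : Mp p))).trans ?_
    rw [map_one, map_one]
  map_mul' m n := by
    apply ev_inj
    refine (Classical.choose_spec (Mp_ex p (m * n))).trans ?_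
    rw [map_mul, map_mul, Classical.choose_spec (Mp_ex p m), Classical.choose_spec (Mp_ex p n)]

lemma ev_thP (m : Mp p) : ev (M2 A) (thP p m) = evHom (Mp p) m :=
  Classical.choose_spec (Mp_ex p m)

lemma thP_coeff_one (m : Mp p) (hm : m ≠ 1) : (thP p m).coeff 1 = 0 := by
  obtain ⟨x₀, h1, h2⟩ := Mp_exists p m.2 (fun h => hm (Subtype.ext h))
  have h3 : trans x₀ (thP p m) = ((m.1 x₀ : Circle) : ℂ) • thP p m := by
    apply ev_inj
    funext x
    rw [ev_trans, ev_thP, map_smul, ev_thP]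
    show ((m.1 (x + x₀) : Circle) : ℂ) = (m.1 x₀ : ℂ) * (m.1 x : ℂ)
    rw [h2, Circle.coe_mul, mul_comm]
  have h4 := coeff_trans x₀ (thP p m)
  rw [h3] at h4
  have h5 : ((m.1 x₀ : Circle) : ℂ) * (thP p m).coeff 1 = (thP p m).coeff 1 := h4
  have h6 : (((m.1 x₀ : Circle) : ℂ) - 1) * (thP p m).coeff 1 = 0 := by
    rw [sub_mul, h5, one_mul, sub_self]
  rcases mul_eq_zero.1 h6 with h7 | h7
  · exfalso; apply h1; apply Circle.ext; rw [sub_eq_zero.1 h7]; simp
  · exact h7

lemma thP_inv (m : Mp p) : thP p m⁻¹ = H197R3.stM (thP p m) := by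
  apply ev_inj
  funext x
  rw [ev_stM, ev_thP, ev_thP]
  show (((m.1 x)⁻¹ : Circle) : ℂ) = conj ((m.1 x : Circle) : ℂ)
  exact Circle.coe_inv_eq_conj _

lemma thP_inv_coeff (m : Mp p) (n : M2 A) : (thP p m⁻¹).coeff n⁻¹ = conj ((thP p m).coeff n) := by
  rw [thP_inv, M2_inv, H197R3.stM, MonoidAlgebra.coeff_map]
  rfl

/-- spanning -/
lemma single_mem_spanP (n : M2 A) :
    MonoidAlgebra.single n (1 : ℂ) ∈ Submodule.span ℂ (Set.range (thP p)) := by
  have hu : ∀ a : A, (fun x => ((up p a x : Circle) : ℂ)) ∈ (ev (Mp p)).range := by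
    intro a
    refine ⟨MonoidAlgebra.single ⟨up p a, up_mem p a⟩ 1, ?_⟩
    funext x; exact (ev_single_apply _ _ _ _).trans (one_mul _)
  have hc : ∀ c : ℂ, (fun _ : XX A => c) ∈ (ev (Mp p)).range := fun c =>
    (ev (Mp p)).range.algebraMap_mem c
  have hg : ∀ a : A, (fun x => ((gg a x : Circle) : ℂ)) ∈ (ev (Mp p)).range := by
    intro a
    refine ⟨MonoidAlgebra.single ⟨gg a, gg_memp p a⟩ 1, ?_⟩
    funext x; exact (ev_single_apply _ _ _ _).trans (one_mul _)
  have hh' : ∀ a : A, (fun x => ((hh a x : Circle) : ℂ)) ∈ (ev (Mp p)).range := by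
    intro a
    have h1 := mul_mem (hu a) (add_mem (hc ((1 - Complex.I) / 2))
        (mul_mem (hc ((1 + Complex.I) / 2)) (hg (p a))))
    convert h1 using 1
    funext x
    show ((sg (x.2.1 a) : Circle) : ℂ) = ((tw2 (x.1 (p a)) * sg (x.2.1 a) : Circle) : ℂ) *
      ((1 - Complex.I) / 2 + (1 + Complex.I) / 2 * (sg (x.1 (p a)) : ℂ))
    rw [← tw_inv_expand, ← Circle.coe_mul, mul_comm (tw2 (x.1 (p a))), mul_inv_cancel_right]
  have hall : evHom (M2 A) n ∈ (ev (Mp p)).range := by
    obtain ⟨m, hm⟩ := n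
    induction hm using Subgroup.closure_induction with
    | mem z hz =>
      rcases hz with ⟨a, rfl⟩ | ⟨a, rfl⟩
      · exact hg a
      · exact hh' a
    | one => rw [show (⟨1, one_mem _⟩ : M2 A) = 1 from rfl, map_one]; exact one_mem _
    | mul q r hp' hq' hp hq =>
      have e : (⟨q * r, mul_mem hp' hq'⟩ : M2 A) = ⟨q, hp'⟩ * ⟨r, hq'⟩ := rfl
      rw [e, map_mul]; exact mul_mem hp hq
    | inv q hp' hp =>
      have e : (⟨q⁻¹, inv_mem hp'⟩ : M2 A) = (⟨q, hp'⟩ : M2 A)⁻¹ := rfl
      rw [e, M2_inv]; exact hp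
  obtain ⟨y, hy⟩ := hall
  have hy' : ev (Mp p) y = evHom (M2 A) n := hy
  have h1 : ∀ y : MonoidAlgebra ℂ (Mp p),
      ev (M2 A) (MonoidAlgebra.lift ℂ _ (Mp p) (thP p) y) = ev (Mp p) y := by
    intro y
    induction y using MonoidAlgebra.induction_linear with
    | zero => simp
    | add a b ha hb => rw [map_add, map_add, map_add, ha, hb]
    | single m r =>
      rw [MonoidAlgebra.lift_single, map_smul, ev_thP, ev_single]
  have h2 : MonoidAlgebra.lift ℂ _ (Mp p) (thP p) y = MonoidAlgebra.single n (1 : ℂ) := by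
    apply ev_inj
    rw [h1, hy', ev_single, one_smul]
  rw [← h2]
  clear h2 hy hy'
  induction y using MonoidAlgebra.induction_linear with
  | zero => rw [map_zero]; exact zero_mem _
  | add a b ha hb => rw [map_add]; exact add_mem ha hb
  | single m r =>
    rw [MonoidAlgebra.lift_single]
    exact Submodule.smul_mem _ _ (Submodule.subset_span ⟨m, rfl⟩)

variable {Λ : Type} [Group Λ] [DistribMulAction Λ A]
  (hp : ∀ (g : Λ) (a : A), p (g • a) = g • p a)

/-- the semidirect product `M_p ⋊ Λ` -/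
abbrev Gp := GG (A := A) Λ (Mp p) (inv_Mp p hp)

lemma thP_phi (g : Λ) (m : Mp p) : thP p (phi (Mp p) (inv_Mp p hp) g m) =
    MonoidAlgebra.mapDomain (phi (M2 A) inv_M2 g) (thP p m) := by
  have key : ∀ (y : MonoidAlgebra ℂ (M2 A)) (x : XX A),
      ev (M2 A) (MonoidAlgebra.mapDomain (phi (M2 A) inv_M2 g) y) x = ev (M2 A) y (pb g x) := by
    intro y x
    induction y using MonoidAlgebra.induction_linear with
    | zero => rw [MonoidAlgebra.mapDomain_zero, map_zero]; rfl
    | add a b ha hb =>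
      rw [MonoidAlgebra.mapDomain_add, map_add, map_add, Pi.add_apply, Pi.add_apply, ha, hb]
    | single m r =>
      rw [MonoidAlgebra.mapDomain_single, ev_single_apply, ev_single_apply, phi_apply]
  apply ev_inj
  funext x
  rw [key, ev_thP, ev_thP]
  rfl

noncomputable def fnP : Mp p →* (MonoidAlgebra ℂ (G2 A Λ))ˣ :=
  MonoidHom.toHomUnits (((inlA A Λ : MonoidAlgebra ℂ (M2 A) →ₐ[ℂ] MonoidAlgebra ℂ (G2 A Λ)) :
    MonoidAlgebra ℂ (M2 A) →* MonoidAlgebra ℂ (G2 A Λ)).comp (thP p))

lemma fnP_coe (m : Mp p) :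
    ((fnP (Λ := Λ) p m : (MonoidAlgebra ℂ (G2 A Λ))ˣ) : MonoidAlgebra ℂ (G2 A Λ)) =
    inlA A Λ (thP p m) := rfl

lemma fnP_compat (g : Λ) :
    (fnP (A := A) (Λ := Λ) p).comp (phi (Mp p) (inv_Mp p hp) g).toMonoidHom =
    (MulAut.conj (fn2 (A := A) g)).toMonoidHom.comp (fnP p) := by
  ext m : 1
  apply Units.ext
  show inlA A Λ (thP p (phi (Mp p) (inv_Mp p hp) g m)) =
    ((fn2 (A := A) g * fnP p m * (fn2 (A := A) g)⁻¹ : (MonoidAlgebra ℂ (G2 A Λ))ˣ) :
      MonoidAlgebra ℂ (G2 A Λ))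
  rw [← map_inv, Units.val_mul, Units.val_mul, fn2_coe, fn2_coe, fnP_coe, thP_phi p hp, inlA_conj]

/-- the twist hom on the whole group -/
noncomputable def thetaP : Gp p hp →* MonoidAlgebra ℂ (G2 A Λ) :=
  (Units.coeHom _).comp (SemidirectProduct.lift (fnP p) fn2 (fnP_compat p hp))

lemma thetaP_mk (x : Gp p hp) : thetaP p hp x =
    inlA A Λ (thP p x.left) * MonoidAlgebra.single (inr x.right) 1 := by
  conv_lhs => rw [← inl_left_mul_inr_right x]
  show ((SemidirectProduct.lift (fnP p) fn2 (fnP_compat p hp) (inl x.left * inr x.right) :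
    (MonoidAlgebra ℂ (G2 A Λ))ˣ) : MonoidAlgebra ℂ (G2 A Λ)) = _
  rw [map_mul, SemidirectProduct.lift_inl, SemidirectProduct.lift_inr, Units.val_mul, fnP_coe,
    fn2_coe]

open Classical in
lemma thetaP_coeff (x : Gp p hp) (h : G2 A Λ) :
    (thetaP p hp x).coeff h = if h.right = x.right then (thP p x.left).coeff h.left else 0 := by
  rw [thetaP_mk, MonoidAlgebra.coeff_mul_single_apply, mul_one, inlA_coeff]
  have e1 : (h * (inr x.right)⁻¹).right = h.right * x.right⁻¹ := by simp
  have e2 : (h * (inr x.right)⁻¹).left = h.left := by simp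
  rw [e1, e2]
  by_cases hh : h.right = x.right
  · rw [if_pos hh, if_pos (by rw [hh, mul_inv_cancel])]
  · rw [if_neg hh, if_neg (fun h' => hh (mul_inv_eq_one.1 h'))]

/-- the twist -/
noncomputable def twistP : Twist (Gp p hp) (G2 A Λ) where
  θ := thetaP p hp
  tr := by
    classical
    intro x hx
    rw [thetaP_coeff]
    split_ifs with h
    · rw [one_right] at h
      rw [one_left]
      apply thP_coeff_one
      intro h2
      exact hx (SemidirectProduct.ext h2 h.symm)
    · rfl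
  st := by
    classical
    intro x h
    rw [thetaP_coeff, thetaP_coeff]
    simp only [inv_right, inv_left, inv_inj]
    split_ifs with h1
    · rw [h1, thP_phi p hp, ← thP_inv_coeff]
      show (Finsupp.mapDomain _ _) _ = _
      rw [Finsupp.mapDomain_apply (MulEquiv.injective _)]
    · simp
  sp := by
    intro h
    have h1 := single_mem_spanP p h.left
    let Ψ : MonoidAlgebra ℂ (M2 A) →ₗ[ℂ] MonoidAlgebra ℂ (G2 A Λ) :=
      (LinearMap.mulRight ℂ (MonoidAlgebra.single (inr h.right) (1 : ℂ))) ∘ₗ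
        (inlA A Λ).toLinearMap
    have h2 : Ψ (MonoidAlgebra.single h.left 1) ∈
        Submodule.map Ψ (Submodule.span ℂ (Set.range (thP (A := A) p))) :=
      Submodule.mem_map_of_mem h1
    have h3 : Ψ (MonoidAlgebra.single h.left 1) = MonoidAlgebra.single h (1 : ℂ) := by
      show inlA A Λ (MonoidAlgebra.single h.left 1) *
        MonoidAlgebra.single (inr h.right) (1 : ℂ) = _
      rw [inlA_single, MonoidAlgebra.single_mul_single, inl_left_mul_inr_right, mul_one]
    rw [h3, Submodule.map_span] at h2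
    refine Submodule.span_mono ?_ h2
    rintro _ ⟨_, ⟨m, rfl⟩, rfl⟩
    refine ⟨⟨m, h.right⟩, ?_⟩
    rw [thetaP_mk]; rfl

end tw

section comp
variable {G H K : Type} [Group G] [Group H] [Group K]

lemma invo_invo (x : MonoidAlgebra ℂ G) : invo (invo x) = x := by
  apply MonoidAlgebra.ext
  ext g
  rw [invo_coeff, invo_coeff, inv_inv, Complex.conj_conj]

/-- comparing two twists with the same target -/
noncomputable def Twist.comp (t : Twist G K) (s : Twist H K) : Twist G H where
  θ := ((algEq s).symm : MonoidAlgebra ℂ K →* MonoidAlgebra ℂ H).comp t.θ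
  tr := by
    intro g hg
    have h1 := algEq_trace s ((algEq s).symm (t.θ g))
    rw [AlgEquiv.apply_symm_apply, t.tr g hg] at h1
    exact h1.symm
  st := by
    intro g h
    have h1 : t.θ g⁻¹ = invo (t.θ g) := by
      apply MonoidAlgebra.ext
      ext x
      rw [invo_coeff]
      have := t.st g x⁻¹
      rw [inv_inv] at this
      exact this
    have h2 : (algEq s).symm (invo (t.θ g)) = invo ((algEq s).symm (t.θ g)) := by
      apply (algEq s).injective
      rw [AlgEquiv.apply_symm_apply, algEq_invo, AlgEquiv.apply_symm_apply]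
    show ((algEq s).symm (t.θ g⁻¹)).coeff h⁻¹ = conj (((algEq s).symm (t.θ g)).coeff h)
    rw [h1, h2, invo_coeff, inv_inv]
  sp := by
    intro h
    have htop : ∀ y : MonoidAlgebra ℂ K, y ∈ Submodule.span ℂ (Set.range t.θ) := by
      intro y
      induction y using MonoidAlgebra.induction_linear with
      | zero => exact Submodule.zero_mem _
      | add a b ha hb => exact Submodule.add_mem _ ha hb
      | single k s =>
        have := Submodule.smul_mem _ s (t.sp k)
        rwa [MonoidAlgebra.smul_single, smul_eq_mul, mul_one] at this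
    have h1 := Submodule.mem_map_of_mem (f := (algEq s).symm.toLinearMap)
      (htop (algEq s (MonoidAlgebra.single h 1)))
    rw [Submodule.map_span, ← Set.range_comp] at h1
    have h2 : (algEq s).symm.toLinearMap (algEq s (MonoidAlgebra.single h 1)) =
        MonoidAlgebra.single h 1 := (algEq s).symm_apply_apply _
    rw [h2] at h1
    exact h1

end comp

end Pool.Agent.H258.CR
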