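import Mathlib
import Pool.Agent.H258.CR.TLam

/-!
# Property (T) for extensions of `EL_3(R)` by quadratic modules
-/

set_option autoImplicit false
set_option linter.unusedSectionVars false
set_option linter.unusedSimpArgs false

namespace Pool.Agent.H258.CR

open Pool.Agent.H197R3 (heis_ineq av Pairwise' IsPr av_isPr descent en av_sub_le π_mul π_one
  av_fix_iff norm_π BiAdd key_bound exists_inv)
open scoped InnerProductSpace ComplexConjugate

/-- the additive group `R^3` -/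
abbrev V3 (R : Type) := Fin 3 → R

/-- the defect of additivity of `u` -/
def zz {A 𝔾 : Type} [AddCommGroup A] [Group 𝔾] (u : A → 𝔾) (a b : A) : 𝔾 :=
  u a * u b * (u (a + b))⁻¹

/-- the abstract semidirect-product data -/
structure TData (R : Type) [Ring R] (𝔾 : Type) [Group 𝔾] where
  lam : Lam R →* 𝔾
  u : V3 R → 𝔾
  ucomm : ∀ a b, u a * u b = u b * u a
  zadd : ∀ a a' b, zz u (a + a') b = zz u a b * zz u a' b
  cj : ∀ g a, lam g * u a * (lam g)⁻¹ = u (g • a)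
  gen : ∀ x, ∃ m ∈ Subgroup.closure (Set.range u), ∃ g, x = m * lam g

namespace TData
variable {R : Type} [Ring R] {𝔾 : Type} [Group 𝔾] (D : TData R 𝔾)

lemma zsymm (a b : V3 R) : zz D.u a b = zz D.u b a := by
  simp only [zz]; rw [D.ucomm, add_comm]

lemma zadd' (a b b' : V3 R) : zz D.u a (b + b') = zz D.u a b * zz D.u a b' := by
  rw [D.zsymm, D.zadd, D.zsymm b, D.zsymm b']

lemma zz_zero (b : V3 R) : zz D.u 0 b = 1 := by
  have := D.zadd 0 0 b
  rw [add_zero] at this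
  exact (mul_eq_left.1 this.symm)

lemma u_zero : D.u 0 = 1 := by
  have := D.zz_zero 0
  simp only [zz, add_zero] at this
  rwa [mul_assoc, mul_inv_cancel, mul_one] at this

lemma u_mul (a b : V3 R) : D.u a * D.u b = zz D.u a b * D.u (a + b) := by
  simp [zz]

lemma mem_comm {x y : 𝔾} (hx : x ∈ Subgroup.closure (Set.range D.u))
    (hy : y ∈ Subgroup.closure (Set.range D.u)) : x * y = y * x := by
  have h1 : ∀ a, ∀ y ∈ Subgroup.closure (Set.range D.u), D.u a * y = y * D.u a := by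
    intro a y hy
    induction hy using Subgroup.closure_induction with
    | mem z hz => obtain ⟨b, rfl⟩ := hz; exact D.ucomm a b
    | one => simp
    | mul p q _ _ hp hq => rw [← mul_assoc, hp, mul_assoc, hq, mul_assoc]
    | inv p _ hp =>
      have : Commute (D.u a) p := hp
      exact this.inv_right
  induction hx using Subgroup.closure_induction with
  | mem z hz => obtain ⟨b, rfl⟩ := hz; exact h1 b y hy
  | one => simp
  | mul p q _ _ hp hq => rw [mul_assoc, hq, ← mul_assoc, hp, mul_assoc]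
  | inv p _ hp =>
    have : Commute p y := hp
    exact this.inv_left

lemma zz_mem (a b : V3 R) : zz D.u a b ∈ Subgroup.closure (Set.range D.u) := by
  have h : ∀ c, D.u c ∈ Subgroup.closure (Set.range D.u) :=
    fun c => Subgroup.subset_closure ⟨c, rfl⟩
  exact Subgroup.mul_mem _ (Subgroup.mul_mem _ (h a) (h b)) (Subgroup.inv_mem _ (h _))

lemma zconj (g : Lam R) (a b : V3 R) :
    D.lam g * zz D.u a b * (D.lam g)⁻¹ = zz D.u (g • a) (g • b) := by
  simp only [zz]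
  rw [← smul_add, ← D.cj, ← D.cj, ← D.cj]
  group

/-- closure of the `z`'s -/
def Zc : Subgroup 𝔾 := Subgroup.closure (Set.range fun p : V3 R × V3 R => zz D.u p.1 p.2)

lemma Zc_le : D.Zc ≤ Subgroup.closure (Set.range D.u) := by
  unfold Zc
  rw [Subgroup.closure_le]
  rintro _ ⟨p, rfl⟩
  exact D.zz_mem _ _

lemma zz_mem_Zc (a b : V3 R) : zz D.u a b ∈ D.Zc := Subgroup.subset_closure ⟨(a, b), rfl⟩

lemma decomp {m : 𝔾} (hm : m ∈ Subgroup.closure (Set.range D.u)) :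
    ∃ a, ∃ s ∈ D.Zc, m = s * D.u a := by
  induction hm using Subgroup.closure_induction with
  | mem z hz => obtain ⟨b, rfl⟩ := hz; exact ⟨b, 1, one_mem _, by simp⟩
  | one => exact ⟨0, 1, one_mem _, by simp [D.u_zero]⟩
  | mul p q _ _ hp hq =>
    obtain ⟨a, s, hs, rfl⟩ := hp
    obtain ⟨b, t, ht, rfl⟩ := hq
    refine ⟨a + b, s * t * zz D.u a b, Subgroup.mul_mem _ (Subgroup.mul_mem _ hs ht)
      (D.zz_mem_Zc a b), ?_⟩
    have h1 : D.u a * t = t * D.u a :=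
      D.mem_comm (Subgroup.subset_closure ⟨a, rfl⟩) (D.Zc_le ht)
    calc s * D.u a * (t * D.u b) = s * (D.u a * t) * D.u b := by group
      _ = s * t * (D.u a * D.u b) := by rw [h1]; group
      _ = s * t * zz D.u a b * D.u (a + b) := by rw [D.u_mul]; group
  | inv p _ hp =>
    obtain ⟨a, s, hs, rfl⟩ := hp
    refine ⟨-a, s⁻¹ * (zz D.u a (-a))⁻¹, Subgroup.mul_mem _ (Subgroup.inv_mem _ hs)
      (Subgroup.inv_mem _ (D.zz_mem_Zc _ _)), ?_⟩
    have h1 : D.u a * D.u (-a) = zz D.u a (-a) := by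
      rw [D.u_mul, add_neg_cancel, D.u_zero, mul_one]
    have h2 : (D.u a)⁻¹ = (zz D.u a (-a))⁻¹ * D.u (-a) := by
      rw [← h1, D.ucomm]; group
    have h3 : (D.u a)⁻¹ * s⁻¹ = s⁻¹ * (D.u a)⁻¹ :=
      D.mem_comm (Subgroup.inv_mem _ (Subgroup.subset_closure ⟨a, rfl⟩))
        (Subgroup.inv_mem _ (D.Zc_le hs))
    rw [_root_.mul_inv_rev, h3, h2]; group

variable (k : Type) [Field k] [Algebra k R]

lemma Zc_fin {s : 𝔾} (hs : s ∈ D.Zc) : ∃ F₀ : Submodule k (V3 R), F₀.FG ∧ ∀ F, F₀ ≤ F →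
    s ∈ Subgroup.closure (Set.range fun p : F × F => zz D.u p.1.1 p.2.1) := by
  induction hs using Subgroup.closure_induction with
  | mem z hz =>
    obtain ⟨⟨a, b⟩, rfl⟩ := hz
    refine ⟨Submodule.span k {a, b}, Submodule.fg_span (by simp), fun F hF => ?_⟩
    exact Subgroup.subset_closure ⟨(⟨a, hF (Submodule.subset_span (by simp))⟩,
      ⟨b, hF (Submodule.subset_span (by simp))⟩), rfl⟩
  | one => exact ⟨⊥, Submodule.fg_bot, fun F _ => one_mem _⟩
  | mul p q _ _ hp hq =>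
    obtain ⟨n1, f1, h1⟩ := hp
    obtain ⟨n2, f2, h2⟩ := hq
    exact ⟨n1 ⊔ n2, f1.sup f2, fun F hF => Subgroup.mul_mem _ (h1 F (le_sup_left.trans hF))
      (h2 F (le_sup_right.trans hF))⟩
  | inv p _ hp =>
    obtain ⟨n1, f1, h1⟩ := hp
    exact ⟨n1, f1, fun F hF => Subgroup.inv_mem _ (h1 F hF)⟩

end TData

section main
variable {k : Type} [Field k] [Fintype k] {R : Type} [Ring R] [Algebra k R] {𝔾 : Type} [Group 𝔾]
  (D : TData R 𝔾) (h2R : ∀ r : R, r + r = 0)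

include h2R in
lemma V3_two (a : V3 R) : a + a = 0 := by
  funext i
  exact h2R (a i)

lemma vec_decomp (a : V3 R) : a = Pi.single 0 (a 0) + Pi.single 1 (a 1) + Pi.single 2 (a 2) := by
  funext i
  fin_cases i <;> simp [Pi.single_apply]

include h2R in
lemma biAdd_inc (F : Submodule k (V3 R)) :
    BiAdd (fun a b : F => zz D.u a.1 b.1) where
  two a := Subtype.ext (V3_two h2R a.1)
  addl a a' b := D.zadd _ _ _
  addr a b b' := D.zadd' _ _ _
  comm a b a' b' := D.mem_comm (D.zz_mem _ _) (D.zz_mem _ _)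

lemma ee_smul_single_same {i j : Fin 3} (h : i ≠ j) (b c : R) :
    (ee h b) • (Pi.single j c : V3 R) = Pi.single j c + Pi.single i (b * c) := by
  rw [ee_smul, Pi.single_eq_same]

lemma ee_smul_single_ne {i j l : Fin 3} (h : i ≠ j) (hl : l ≠ j) (b c : R) :
    (ee h b) • (Pi.single l c : V3 R) = Pi.single l c := by
  rw [ee_smul, Pi.single_eq_of_ne hl.symm, mul_zero, Pi.single_zero, add_zero]

variable {E : Type} [NormedAddCommGroup E] [InnerProductSpace ℂ E] [CompleteSpace E]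
variable (π : 𝔾 →* (E →L[ℂ] E)) (hπ : ∀ g, π g ∈ unitary (E →L[ℂ] E))

/-- displacement -/
noncomputable def ell (ξ : E) (g : 𝔾) : ℝ := ‖π g ξ - ξ‖

include hπ
lemma ell_mul (ξ : E) (g h : 𝔾) : ell π ξ (g * h) ≤ ell π ξ g + ell π ξ h := by
  unfold ell
  rw [π_mul]
  have e : π g (π h ξ) - ξ = π g (π h ξ - ξ) + (π g ξ - ξ) := by rw [map_sub]; abel
  rw [e]
  calc _ ≤ ‖π g (π h ξ - ξ)‖ + ‖π g ξ - ξ‖ := norm_add_le _ _
    _ = ‖π g ξ - ξ‖ + ‖π h ξ - ξ‖ := by rw [norm_π π hπ, add_comm]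

lemma ell_inv (ξ : E) (g : 𝔾) : ell π ξ g⁻¹ = ell π ξ g := by
  unfold ell
  have e : π g⁻¹ ξ - ξ = - π g⁻¹ (π g ξ - ξ) := by
    rw [map_sub, ← π_mul, inv_mul_cancel, π_one]; abel
  rw [e, norm_neg, norm_π π hπ]

lemma ell_conj (ξ : E) (hξ : ∀ g, π (D.lam g) ξ = ξ) (g : Lam R) (x : 𝔾) :
    ell π ξ (D.lam g * x * (D.lam g)⁻¹) = ell π ξ x := by
  unfold ell
  rw [π_mul, π_mul, ← map_inv, hξ]
  have e : π (D.lam g) (π x ξ) - ξ = π (D.lam g) (π x ξ - ξ) := by rw [map_sub, hξ]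
  rw [e, norm_π π hπ]

lemma ell_mul_lam (ξ : E) (hξ : ∀ g, π (D.lam g) ξ = ξ) (g : Lam R) (x : 𝔾) :
    ell π ξ (x * D.lam g) = ell π ξ x := by
  unfold ell
  rw [π_mul, hξ]

lemma zeta_bound1 (ξ : E) (hξ : ∀ g, π (D.lam g) ξ = ξ) (ε : ℝ)
    (hz : ∀ i j : Fin 3, i ≠ j → ell π ξ (zz D.u (Pi.single i 1) (Pi.single j 1)) ≤ ε)
    (i j : Fin 3) (hij : i ≠ j) (f : R) :
    ell π ξ (zz D.u (Pi.single i f) (Pi.single j 1)) ≤ 2 * ε := by
  obtain ⟨l, hil, hlj⟩ : ∃ l : Fin 3, i ≠ l ∧ l ≠ j := by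
    revert i j; decide
  have h1 := D.zconj (ee hil f) (Pi.single l 1) (Pi.single j 1)
  rw [ee_smul_single_same, mul_one, ee_smul_single_ne hil hlj.symm, D.zadd] at h1
  have h2 := ell_conj D π hπ ξ hξ (ee hil f) (zz D.u (Pi.single l 1) (Pi.single j 1))
  rw [h1] at h2
  have h3 : zz D.u (Pi.single i f) (Pi.single j 1) =
      (zz D.u (Pi.single l 1) (Pi.single j 1))⁻¹ *
      (zz D.u (Pi.single l 1) (Pi.single j 1) * zz D.u (Pi.single i f) (Pi.single j 1)) := by group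
  rw [h3]
  refine (ell_mul π hπ ξ _ _).trans ?_
  rw [h2, ell_inv π hπ]
  have := hz l j hlj
  linarith

lemma zeta_bound2 (ξ : E) (hξ : ∀ g, π (D.lam g) ξ = ξ) (ε : ℝ)
    (hz : ∀ i j : Fin 3, i ≠ j → ell π ξ (zz D.u (Pi.single i 1) (Pi.single j 1)) ≤ ε)
    (i j : Fin 3) (f g : R) :
    ell π ξ (zz D.u (Pi.single i f) (Pi.single j g)) ≤ 4 * ε := by
  obtain ⟨l, hil, hlj⟩ : ∃ l : Fin 3, i ≠ l ∧ j ≠ l := by
    revert i j; decide
  have h1 := D.zconj (ee hlj g) (Pi.single i f) (Pi.single l 1)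
  rw [ee_smul_single_same, mul_one, ee_smul_single_ne hlj hil, D.zadd'] at h1
  have h2 := ell_conj D π hπ ξ hξ (ee hlj g) (zz D.u (Pi.single i f) (Pi.single l 1))
  rw [h1] at h2
  have h3 : zz D.u (Pi.single i f) (Pi.single j g) =
      (zz D.u (Pi.single i f) (Pi.single l 1))⁻¹ *
      (zz D.u (Pi.single i f) (Pi.single l 1) * zz D.u (Pi.single i f) (Pi.single j g)) := by group
  rw [h3]
  refine (ell_mul π hπ ξ _ _).trans ?_
  rw [h2, ell_inv π hπ]
  have := zeta_bound1 D π hπ ξ hξ ε hz i l hil f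
  linarith

lemma zeta_bound3 (ξ : E) (hξ : ∀ g, π (D.lam g) ξ = ξ) (ε : ℝ)
    (hz : ∀ i j : Fin 3, i ≠ j → ell π ξ (zz D.u (Pi.single i 1) (Pi.single j 1)) ≤ ε)
    (a b : V3 R) : ell π ξ (zz D.u a b) ≤ 36 * ε := by
  have h1 : ∀ i f, ell π ξ (zz D.u (Pi.single i f) b) ≤ 12 * ε := by
    intro i f
    conv_lhs => rw [vec_decomp b]
    rw [D.zadd', D.zadd']
    have c0 := zeta_bound2 D π hπ ξ hξ ε hz i 0 f (b 0)
    have c1 := zeta_bound2 D π hπ ξ hξ ε hz i 1 f (b 1)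
    have c2 := zeta_bound2 D π hπ ξ hξ ε hz i 2 f (b 2)
    have m1 := ell_mul π hπ ξ (zz D.u (Pi.single i f) (Pi.single 0 (b 0)) *
      zz D.u (Pi.single i f) (Pi.single 1 (b 1))) (zz D.u (Pi.single i f) (Pi.single 2 (b 2)))
    have m2 := ell_mul π hπ ξ (zz D.u (Pi.single i f) (Pi.single 0 (b 0)))
      (zz D.u (Pi.single i f) (Pi.single 1 (b 1)))
    linarith
  conv_lhs => rw [vec_decomp a]
  rw [D.zadd, D.zadd]
  have c0 := h1 0 (a 0)
  have c1 := h1 1 (a 1)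
  have c2 := h1 2 (a 2)
  have m1 := ell_mul π hπ ξ (zz D.u (Pi.single 0 (a 0)) b * zz D.u (Pi.single 1 (a 1)) b)
    (zz D.u (Pi.single 2 (a 2)) b)
  have m2 := ell_mul π hπ ξ (zz D.u (Pi.single 0 (a 0)) b) (zz D.u (Pi.single 1 (a 1)) b)
  linarith

include h2R in
lemma u_bound (ξ : E) (hξ : ∀ g, π (D.lam g) ξ = ξ) (ε : ℝ)
    (hz : ∀ i j : Fin 3, i ≠ j → ell π ξ (zz D.u (Pi.single i 1) (Pi.single j 1)) ≤ ε)
    (hu : ∀ i : Fin 3, ell π ξ (D.u (Pi.single i 1)) ≤ ε)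
    (a : V3 R) : ell π ξ (D.u a) ≤ 186 * ε := by
  have hadd : ∀ a b, ell π ξ (D.u (a + b)) ≤ ell π ξ (D.u a) + ell π ξ (D.u b) + 36 * ε := by
    intro a b
    have h1 : D.u (a + b) = (zz D.u a b)⁻¹ * (D.u a * D.u b) := by rw [D.u_mul]; group
    rw [h1]
    have m1 := ell_mul π hπ ξ (zz D.u a b)⁻¹ (D.u a * D.u b)
    have m2 := ell_mul π hπ ξ (D.u a) (D.u b)
    have m3 := zeta_bound3 D π hπ ξ hξ ε hz a b
    rw [ell_inv π hπ] at m1
    linarith
  have h1 : ∀ i f, ell π ξ (D.u (Pi.single i f)) ≤ 38 * ε := by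
    intro i f
    obtain ⟨l, hil⟩ : ∃ l : Fin 3, i ≠ l := by
      revert i; decide
    have h1 := D.cj (ee hil f) (Pi.single l 1)
    have h2 := ell_conj D π hπ ξ hξ (ee hil f) (D.u (Pi.single l 1))
    rw [h1, ee_smul_single_same, mul_one] at h2
    have e3 : (Pi.single i f : V3 R) = Pi.single l 1 + (Pi.single l 1 + Pi.single i f) := by
      rw [← add_assoc, V3_two h2R, zero_add]
    rw [e3]
    have h4 := hadd (Pi.single l 1) (Pi.single l 1 + Pi.single i f)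
    rw [h2] at h4
    have h5 := hu l
    linarith
  conv_lhs => rw [vec_decomp a]
  have c0 := h1 0 (a 0)
  have c1 := h1 1 (a 1)
  have c2 := h1 2 (a 2)
  have m1 := hadd (Pi.single 0 (a 0) + Pi.single 1 (a 1)) (Pi.single 2 (a 2))
  have m2 := hadd (Pi.single 0 (a 0)) (Pi.single 1 (a 1))
  linarith

include k h2R in
lemma all_bound (ξ : E) (hξ : ∀ g, π (D.lam g) ξ = ξ) (ε : ℝ)
    (hz : ∀ i j : Fin 3, i ≠ j → ell π ξ (zz D.u (Pi.single i 1) (Pi.single j 1)) ≤ ε)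
    (hu : ∀ i : Fin 3, ell π ξ (D.u (Pi.single i 1)) ≤ ε)
    (x : 𝔾) : ell π ξ x ≤ 330 * ε := by
  obtain ⟨m, hm, g, rfl⟩ := D.gen x
  rw [ell_mul_lam D π hπ ξ hξ]
  obtain ⟨a, s, hs, rfl⟩ := D.decomp hm
  obtain ⟨F, hF, hn⟩ := D.Zc_fin k hs
  have : Module.Finite k F := Module.Finite.iff_fg.2 hF
  have : Finite F := Module.finite_of_finite k
  have : Fintype F := Fintype.ofFinite F
  have h1 := key_bound π hπ (biAdd_inc D h2R F) ξ (36 * ε)
    (fun a b => zeta_bound3 D π hπ ξ hξ ε hz _ _) s (hn F le_rfl)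
  have h2 := u_bound D h2R π hπ ξ hξ ε hz hu a
  have h3 := ell_mul π hπ ξ s (D.u a)
  have h4 : ell π ξ s ≤ 4 * (36 * ε) := h1
  linarith

end main

/-- Property (T) for a group generated by the images of two groups with `TData` that share the
elementary group. -/
theorem T_of_two {k : Type} [Field k] [Fintype k] {R : Type} [Ring R] [Algebra k R] {x y : R}
    (hgen : Algebra.adjoin k {x, y} = (⊤ : Subalgebra k R)) (h2R : ∀ r : R, r + r = 0)
    {Ga Gb GG' : Type} [Group Ga] [Group Gb] [Group GG']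
    (hk : 7 ≤ Fintype.card k) (D : TData R Ga) (D' : TData R Gb) (f : Ga →* GG') (f' : Gb →* GG')
    (hlam : ∀ g, f (D.lam g) = f' (D'.lam g)) (hgen' : ∀ x : GG', ∃ y y', x = f y * f' y') :
    ∃ S : Finset GG', ∃ ε : ℝ, 0 < ε ∧
      ∀ (E : Type) [NormedAddCommGroup E] [InnerProductSpace ℂ E] [CompleteSpace E]
        (π : GG' →* (E →L[ℂ] E)),
        (∀ g : GG', π g ∈ unitary (E →L[ℂ] E)) →
        (∃ v : E, ‖v‖ = 1 ∧ ∀ s ∈ S, ‖(π s) v - v‖ < ε) →
        ∃ w : E, w ≠ 0 ∧ ∀ g : GG', (π g) w = w := by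
  classical
  refine ⟨(Finset.univ.image fun a => f (D.lam (xh d01 (ιC k R) a))) ∪
    (Finset.univ.image fun a => f (D.lam (xh d12 (ιC k R) a))) ∪
    (Finset.univ.image fun a => f (D.lam (xh d20 (ι3 (k := k) x y) a))) ∪
    (Finset.univ.image fun i : Fin 3 => f (D.u (Pi.single i 1))) ∪
    (Finset.univ.image fun p : Fin 3 × Fin 3 => f (zz D.u (Pi.single p.1 1) (Pi.single p.2 1))) ∪
    (Finset.univ.image fun i : Fin 3 => f' (D'.u (Pi.single i 1))) ∪
    (Finset.univ.image fun p : Fin 3 × Fin 3 => f' (zz D'.u (Pi.single p.1 1) (Pi.single p.2 1))),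
    1/100000, by norm_num, ?_⟩
  intro E _ _ _ π hπ ⟨v, hv, hS⟩
  have hS1 : ∀ a, ‖π (f (D.lam (xh d01 (ιC k R) a))) v - v‖ < 1/100000 := fun a => hS _ (by
    simp only [Finset.mem_union, Finset.mem_image, Finset.mem_univ, true_and]
    exact Or.inl (Or.inl (Or.inl (Or.inl (Or.inl (Or.inl ⟨a, rfl⟩))))))
  have hS2 : ∀ a, ‖π (f (D.lam (xh d12 (ιC k R) a))) v - v‖ < 1/100000 := fun a => hS _ (by
    simp only [Finset.mem_union, Finset.mem_image, Finset.mem_univ, true_and]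
    exact Or.inl (Or.inl (Or.inl (Or.inl (Or.inl (Or.inr ⟨a, rfl⟩))))))
  have hS3 : ∀ a, ‖π (f (D.lam (xh d20 (ι3 (k := k) x y) a))) v - v‖ < 1/100000 :=
    fun a => hS _ (by
      simp only [Finset.mem_union, Finset.mem_image, Finset.mem_univ, true_and]
      exact Or.inl (Or.inl (Or.inl (Or.inl (Or.inr ⟨a, rfl⟩)))))
  have hS4 : ∀ i : Fin 3, ‖π (f (D.u (Pi.single i 1))) v - v‖ < 1/100000 := fun i => hS _ (by
    simp only [Finset.mem_union, Finset.mem_image, Finset.mem_univ, true_and]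
    exact Or.inl (Or.inl (Or.inl (Or.inr ⟨i, rfl⟩))))
  have hS5 : ∀ i j : Fin 3, ‖π (f (zz D.u (Pi.single i 1) (Pi.single j 1))) v - v‖ < 1/100000 :=
    fun i j => hS _ (by
      simp only [Finset.mem_union, Finset.mem_image, Finset.mem_univ, true_and]
      exact Or.inl (Or.inl (Or.inr ⟨(i, j), rfl⟩)))
  have hS6 : ∀ i : Fin 3, ‖π (f' (D'.u (Pi.single i 1))) v - v‖ < 1/100000 := fun i => hS _ (by
    simp only [Finset.mem_union, Finset.mem_image, Finset.mem_univ, true_and]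
    exact Or.inl (Or.inr ⟨i, rfl⟩))
  have hS7 : ∀ i j : Fin 3, ‖π (f' (zz D'.u (Pi.single i 1) (Pi.single j 1))) v - v‖ < 1/100000 :=
    fun i j => hS _ (by
      simp only [Finset.mem_union, Finset.mem_image, Finset.mem_univ, true_and]
      exact Or.inr ⟨(i, j), rfl⟩)
  obtain ⟨ξ, hξ, hvξ⟩ := lam_inv hgen ((π.comp f).comp D.lam) (fun g => hπ _) hk v (1/100000)
    (fun a => (hS1 a).le) (fun a => (hS2 a).le) (fun a => (hS3 a).le)
  have hξ1 : ∀ g, (π.comp f) (D.lam g) ξ = ξ := fun g => hξ g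
  have hξ2 : ∀ g, (π.comp f') (D'.lam g) ξ = ξ := fun g => by
    have := hξ g
    show π (f' (D'.lam g)) ξ = ξ
    rw [← hlam]; exact this
  have hell : ∀ s : GG', ‖π s v - v‖ < 1/100000 → ‖π s ξ - ξ‖ ≤ 121/100000 := by
    intro s hs
    have e : π s ξ - ξ = - π s (v - ξ) + (π s v - v) + (v - ξ) := by rw [map_sub]; abel
    rw [e]
    calc _ ≤ ‖- π s (v - ξ)‖ + ‖π s v - v‖ + ‖v - ξ‖ := norm_add₃_le
      _ = ‖v - ξ‖ + ‖π s v - v‖ + ‖v - ξ‖ := by rw [norm_neg, norm_π π hπ]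
      _ ≤ 121/100000 := by linarith
  have hb := all_bound (k := k) D h2R (π.comp f) (fun g => hπ _) ξ hξ1 (121/100000)
    (fun i j _ => hell _ (hS5 i j)) (fun i => hell _ (hS4 i))
  have hb' := all_bound (k := k) D' h2R (π.comp f') (fun g => hπ _) ξ hξ2 (121/100000)
    (fun i j _ => hell _ (hS7 i j)) (fun i => hell _ (hS6 i))
  have hξn : 1 - 60 * (1/100000) ≤ ‖ξ‖ := by
    have h1 := norm_sub_norm_le v ξ
    rw [hv] at h1
    linarith
  refine exists_inv π hπ ξ (660 * (121/100000)) (by linarith) ?_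
  intro x
  obtain ⟨y, y', rfl⟩ := hgen' x
  have h1 := ell_mul π hπ ξ (f y) (f' y')
  have h2 : ell π ξ (f y) ≤ 330 * (121/100000) := hb y
  have h3 : ell π ξ (f' y') ≤ 330 * (121/100000) := hb' y'
  have h4 : ‖π (f y * f' y') ξ - ξ‖ = ell π ξ (f y * f' y') := rfl
  rw [h4]
  linarith

end Pool.Agent.H258.CR
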