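import Mathlib
import Pool.Agent.H258.CR.Mp
import Pool.Agent.H258.CR.TG
import Pool.Agent.H258.CR.Jac
import Pool.Graph.R_seed8.Y276.Rig.El
import Pool.Graph.R_seed8.Y276.Rig.Stm

/-!
# Property (T) of the groups `M_p ⋊ EL_3(R)`
-/

set_option autoImplicit false
set_option linter.unusedSectionVars false
set_option linter.unusedSimpArgs false

namespace Pool.Agent.H258.CR

open Pool.Agent.H197R3 (XX Quad gg gg_mem GG Inv' phi closure_countable)
open Pool.Agent.Y276.Rig (Mg gg_memg inv_Mg incl PropertyT propertyT_of)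
open SemidirectProduct

section two
variable {A : Type} [AddCommGroup A] (p : A →+ A) {Λ : Type} [Group Λ] [DistribMulAction Λ A]

/-- the subgroup generated by the `up p a` -/
noncomputable def Mu : Subgroup (XX A → Circle) := Subgroup.closure (Set.range (up p))

lemma up_memu (a : A) : up p a ∈ Mu p := Subgroup.subset_closure ⟨a, rfl⟩

lemma inv_Mu (hp : ∀ (g : Λ) (a : A), p (g • a) = g • p a) : Inv' Λ (Mu p) := by
  intro g m hm
  induction hm using Subgroup.closure_induction with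
  | mem z hz =>
    obtain ⟨a, rfl⟩ := hz
    have : (fun x => up p a (Pool.Agent.H197R3.pb g x)) = up p (g • a) := by
      funext x
      show Pool.Agent.H197R3.tw2 (x.1 (g • p a)) * Pool.Agent.H197R3.sg (x.2.1 (g • a)) =
        Pool.Agent.H197R3.tw2 (x.1 (p (g • a))) * Pool.Agent.H197R3.sg (x.2.1 (g • a))
      rw [hp]
    rw [this]
    exact up_memu p (g • a)
  | one => exact one_mem _
  | mul p q _ _ hp hq => exact mul_mem hp hq
  | inv p _ hp => exact inv_mem hp

lemma Mg_lep : Mg A ≤ Mp p := Subgroup.closure_mono Set.subset_union_left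
lemma Mu_lep : Mu p ≤ Mp p := Subgroup.closure_mono Set.subset_union_right

lemma Mp_split (m : Mp p) : ∃ q : Mg A, ∃ r : Mu p,
    m = Subgroup.inclusion (Mg_lep p) q * Subgroup.inclusion (Mu_lep p) r := by
  have h1 : Mp p = Mg A ⊔ Mu p := Subgroup.closure_union _ _
  have h2 : m.1 ∈ Mg A ⊔ Mu p := by rw [← h1]; exact m.2
  rw [Subgroup.mem_sup] at h2
  obtain ⟨q, hq, r, hr, hqr⟩ := h2
  exact ⟨⟨q, hq⟩, ⟨r, hr⟩, Subtype.ext hqr.symm⟩

end two

section data
variable (R : Type) [Ring R]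

/-- `TData` of `Mg ⋊ Λ` -/
noncomputable def dataG : TData R (GG (A := V3 R) (Lam R) (Mg (V3 R)) inv_Mg) where
  lam := inr
  u a := inl ⟨gg a, gg_memg a⟩
  ucomm a b := by
    rw [← map_mul, ← map_mul, mul_comm]
  zadd a a' b := by
    have key : ∀ a b : V3 R, zz (fun a => (inl ⟨gg a, gg_memg a⟩ :
        GG (A := V3 R) (Lam R) (Mg (V3 R)) inv_Mg)) a b = 1 := by
      intro a b
      unfold zz
      have h : (⟨gg a, gg_memg a⟩ * ⟨gg b, gg_memg b⟩ * (⟨gg (a + b), gg_memg (a + b)⟩)⁻¹ :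
          Mg (V3 R)) = 1 := by
        apply Subtype.ext
        show (gg a * gg b * (gg (a + b))⁻¹ : XX (V3 R) → Circle) = 1
        rw [gg_add, mul_inv_cancel]
      rw [← map_mul, ← map_inv, ← map_mul, h, map_one]
    rw [key, key, key, one_mul]
  cj g a := by
    rw [← map_inv, ← inl_aut]
    rfl
  gen x := by
    refine ⟨inl x.left, ?_, x.right, (inl_left_mul_inr_right x).symm⟩
    obtain ⟨m, hm⟩ := x.left
    induction hm using Subgroup.closure_induction with
    | mem z hz => obtain ⟨a, rfl⟩ := hz; exact Subgroup.subset_closure ⟨a, rfl⟩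
    | one =>
      rw [show (⟨1, one_mem _⟩ : Mg (V3 R)) = 1 from rfl, map_one]; exact one_mem _
    | mul p q hp' hq' hp hq =>
      have e : (⟨p * q, mul_mem hp' hq'⟩ : Mg (V3 R)) = ⟨p, hp'⟩ * ⟨q, hq'⟩ := rfl
      rw [e, map_mul]; exact mul_mem hp hq
    | inv p hp' hp =>
      have e : (⟨p⁻¹, inv_mem hp'⟩ : Mg (V3 R)) = (⟨p, hp'⟩ : Mg (V3 R))⁻¹ := rfl
      rw [e, map_inv]; exact inv_mem hp

variable {R}
variable (p : V3 R →+ V3 R) (hp : ∀ (g : Lam R) (a : V3 R), p (g • a) = g • p a)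

/-- `TData` of `Mu ⋊ Λ` -/
noncomputable def dataU : TData R (GG (A := V3 R) (Lam R) (Mu p) (inv_Mu p hp)) where
  lam := inr
  u a := inl ⟨up p a, up_memu p a⟩
  ucomm a b := by
    rw [← map_mul, ← map_mul, mul_comm]
  zadd a a' b := by
    have key : ∀ a b : V3 R, zz (fun a => (inl ⟨up p a, up_memu p a⟩ :
        GG (A := V3 R) (Lam R) (Mu p) (inv_Mu p hp))) a b =
        inl (⟨up p a, up_memu p a⟩ * ⟨up p b, up_memu p b⟩ *
          (⟨up p (a + b), up_memu p (a + b)⟩)⁻¹ : Mu p) := by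
      intro a b
      unfold zz
      rw [map_mul, map_mul, map_inv]
    rw [key, key, key, ← map_mul]
    congr 1
    apply Subtype.ext
    exact zz_up_add p a a' b
  cj g a := by
    rw [← map_inv, ← inl_aut]
    congr 1
    apply Subtype.ext
    funext x
    show Pool.Agent.H197R3.tw2 (x.1 (g • p a)) * Pool.Agent.H197R3.sg (x.2.1 (g • a)) =
        Pool.Agent.H197R3.tw2 (x.1 (p (g • a))) * Pool.Agent.H197R3.sg (x.2.1 (g • a))
    rw [hp]
  gen x := by
    refine ⟨inl x.left, ?_, x.right, (inl_left_mul_inr_right x).symm⟩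
    obtain ⟨m, hm⟩ := x.left
    induction hm using Subgroup.closure_induction with
    | mem z hz => obtain ⟨a, rfl⟩ := hz; exact Subgroup.subset_closure ⟨a, rfl⟩
    | one =>
      rw [show (⟨1, one_mem _⟩ : Mu p) = 1 from rfl, map_one]; exact one_mem _
    | mul q r hp' hq' hp hq =>
      have e : (⟨q * r, mul_mem hp' hq'⟩ : Mu p) = ⟨q, hp'⟩ * ⟨r, hq'⟩ := rfl
      rw [e, map_mul]; exact mul_mem hp hq
    | inv q hp' hp =>
      have e : (⟨q⁻¹, inv_mem hp'⟩ : Mu p) = (⟨q, hp'⟩ : Mu p)⁻¹ := rfl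
      rw [e, map_inv]; exact inv_mem hp

/-- Property (T) for `M_p ⋊ EL_3(R)`. -/
theorem T_Gp {k : Type} [Field k] [Fintype k] [Algebra k R] {x y : R}
    (hgen : Algebra.adjoin k {x, y} = (⊤ : Subalgebra k R)) (h2R : ∀ r : R, r + r = 0)
    (hk : 7 ≤ Fintype.card k) : PropertyT (Gp p hp) := by
  apply propertyT_of
  refine T_of_two hgen h2R hk (dataG R) (dataU p hp) (incl _ _ inv_Mg (inv_Mp p hp) (Mg_lep p))
    (incl _ _ (inv_Mu p hp) (inv_Mp p hp) (Mu_lep p)) ?_ ?_
  · intro g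
    show incl _ _ inv_Mg (inv_Mp p hp) (Mg_lep p) (inr g) =
      incl _ _ (inv_Mu p hp) (inv_Mp p hp) (Mu_lep p) (inr g)
    rw [incl, incl, SemidirectProduct.map_inr, SemidirectProduct.map_inr]
  · intro x
    obtain ⟨q, r, hqr⟩ := Mp_split p x.left
    refine ⟨inl q, inl r * inr x.right, ?_⟩
    rw [map_mul, incl, incl, SemidirectProduct.map_inl, SemidirectProduct.map_inl,
      SemidirectProduct.map_inr, ← mul_assoc, ← map_mul, ← hqr]
    exact (inl_left_mul_inr_right x).symm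

end data

end Pool.Agent.H258.CR
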