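import Mathlib
import Pool.Agent.H258.CR.MU
import Pool.Agent.H258.CR.EL

/-!
# Finite index subgroups and abelian subgroups of `EL_3` of the ring of the two shifts
-/

set_option autoImplicit false
set_option linter.unusedSectionVars false
set_option linter.unusedSimpArgs false

namespace Pool.Agent.H258.CR

section jl
variable {k R : Type} [Field k] [Ring R] [Algebra k R] (U : MU k R)

/-- a finite index subgroup contains all elementary matrices with entries in the matrix units -/
lemma fi_mem (L : Subgroup (Lam R)) (hL : L.index ≠ 0) {i j : Fin 3} (h : i ≠ j) (γ : k)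
    (a b : ℕ) : ee h (γ • U.e a b : R) ∈ L := by
  have hfi : L.FiniteIndex := ⟨hL⟩
  have hfi2 : L.normalCore.FiniteIndex := inferInstance
  have hfin : Finite (Lam R ⧸ L.normalCore) := Subgroup.finite_quotient_of_finiteIndex
  obtain ⟨l, hil, hlj⟩ : ∃ l : Fin 3, i ≠ l ∧ l ≠ j := by
    revert i j; decide
  obtain ⟨c, c', hcc, hc⟩ := Finite.exists_ne_map_eq_of_infinite
    (fun c : ℕ => (QuotientGroup.mk (ee hil (U.e a c)) : Lam R ⧸ L.normalCore))
  have h1 : (ee hil (U.e a c))⁻¹ * ee hil (U.e a c') ∈ L.normalCore :=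
    QuotientGroup.eq.1 hc
  rw [← ee_neg, ← ee_add] at h1
  have h2 : ((-U.e a c + U.e a c') * γ • U.e c' b : R) = γ • U.e a b := by
    rw [add_mul, neg_mul, U.smul_mul_e, U.smul_mul_e, if_neg hcc, if_pos rfl, neg_zero, zero_add]
  have h3 := ee_comm hil hlj h (-U.e a c + U.e a c' : R) (γ • U.e c' b)
  rw [h2] at h3
  have h4 : ee h (γ • U.e a b : R) = ee hil (-U.e a c + U.e a c' : R) *
      (ee hlj (γ • U.e c' b) * (ee hil (-U.e a c + U.e a c' : R))⁻¹ * (ee hlj (γ • U.e c' b))⁻¹) := by
    rw [eq_mul_inv_of_mul_eq h3.symm]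
    group
  apply L.normalCore_le
  rw [h4]
  exact mul_mem h1 (L.normalCore_normal.conj_mem _ (inv_mem h1) _)

lemma single_mul_entry' {R : Type} [Ring R] (M : Matrix (Fin 3) (Fin 3) R) (i j : Fin 3) (c : R)
    (p q : Fin 3) : (Matrix.single i j c * M) p q = if p = i then c * M j q else 0 := by
  rw [Matrix.mul_apply]
  simp only [Matrix.single_apply]
  by_cases h : i = p
  · subst h; simp
  · have : ¬ p = i := fun h' => h h'.symm
    simp [h, this]

lemma mul_single_entry' {R : Type} [Ring R] (M : Matrix (Fin 3) (Fin 3) R) (i j : Fin 3) (c : R)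
    (p q : Fin 3) : (M * Matrix.single i j c) p q = if q = j then M p i * c else 0 := by
  rw [Matrix.mul_apply]
  simp only [Matrix.single_apply]
  by_cases h : j = q
  · subst h; simp
  · have : ¬ q = j := fun h' => h h'.symm
    simp [h, this]

/-- off-diagonal entries vanish -/
lemma offdiag (h2R : ∀ r : R, r + r = 0) (N : Subgroup (Lam R))
    (hN : ∀ {i j : Fin 3} (h : i ≠ j) (a b : ℕ), ∀ n ∈ N,
      ee h (U.e a b) * n * (ee h (U.e a b))⁻¹ ∈ N)
    (hc : ∀ n ∈ N, ∀ n' ∈ N, n * n' = n' * n) (g : Lam R) (hg : g ∈ N) {i j : Fin 3}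
    (h : i ≠ j) : (g.1.1 : Matrix (Fin 3) (Fin 3) R) j i = 0 := by
  set G : Matrix (Fin 3) (Fin 3) R := g.1.1 with hG
  have hneg : ∀ r : R, -r = r := fun r => neg_eq_of_add_eq_zero_left (h2R r)
  have key : ∀ a b : ℕ, (G * G) j i * U.e a b + G j i * U.e a b * G j i * U.e a b = 0 := by
    intro a b
    have h1 := hc _ (hN h a b g hg) g hg
    rw [← ee_neg, hneg] at h1
    have h3 := congrArg (fun z : Lam R => (z.1.1 : Matrix (Fin 3) (Fin 3) R)) h1
    have h4 : (1 + Matrix.single i j (U.e a b)) * G * (1 + Matrix.single i j (U.e a b)) * G =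
        G * ((1 + Matrix.single i j (U.e a b)) * G * (1 + Matrix.single i j (U.e a b))) := h3
    set X : Matrix (Fin 3) (Fin 3) R := Matrix.single i j (U.e a b) with hX
    have h5 : X * (G * G) + X * (G * (X * G)) = G * G * X + G * X * G * X := by
      have e1 : (1 + X) * G * (1 + X) * G = (G * G + G * X * G) +
          (X * (G * G) + X * (G * (X * G))) := by
        simp only [add_mul, mul_add, one_mul, mul_one, mul_assoc] <;> abel
      have e2 : G * ((1 + X) * G * (1 + X)) = (G * G + G * X * G) +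
          (G * G * X + G * X * G * X) := by
        simp only [add_mul, mul_add, one_mul, mul_one, mul_assoc] <;> abel
      rw [e1, e2] at h4
      exact add_left_cancel h4
    have h6 := congrArg (fun M => M j j) h5
    simp only [Matrix.add_apply] at h6
    rw [hX, single_mul_entry', single_mul_entry', mul_single_entry', mul_single_entry',
      if_neg h.symm, if_neg h.symm, if_pos rfl, if_pos rfl, add_zero] at h6
    have h7 : (G * Matrix.single i j (U.e a b) * G : Matrix (Fin 3) (Fin 3) R) j i =
        G j i * U.e a b * G j i := by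
      rw [Matrix.mul_apply]
      simp only [mul_single_entry']
      simp
    rw [h7] at h6
    exact h6.symm
  apply U.ext
  have h8 : ∀ a b p : ℕ, U.ent ((G * G) j i) p a + U.ent (G j i) b a * U.ent (G j i) p a = 0 := by
    intro a b p
    have h9 := congrArg (fun r => U.ent r p b) (key a b)
    simp only [U.ent_add, U.ent_zero] at h9
    have h10 : G j i * U.e a b * G j i * U.e a b = U.ent (G j i) b a • (G j i * U.e a b) := by
      rw [mul_assoc, mul_assoc, ← mul_assoc (U.e a b) (G j i), U.e_mul_mul_e, mul_smul_comm]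
    rw [h10, U.ent_smul, U.ent_mul_e, U.ent_mul_e, if_pos rfl, if_pos rfl] at h9
    exact h9
  intro p a
  rw [U.ent_zero]
  obtain ⟨B, hB⟩ := U.ent_finite (G j i) a
  have h11 : ∀ p, U.ent ((G * G) j i) p a = 0 := by
    intro p
    have := h8 a B p
    rwa [hB B le_rfl, zero_mul, add_zero] at this
  have h12 := h8 a p p
  rw [h11, zero_add] at h12
  exact mul_self_eq_zero.1 h12

/-- the determinant of the augmentation -/
noncomputable def dt : (Matrix (Fin 3) (Fin 3) R)ˣ →* k :=
  (Matrix.detMonoidHom.comp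
    (U.aug.mapMatrix (m := Fin 3)).toMonoidHom).comp (Units.coeHom _)

lemma dt_apply (g : (Matrix (Fin 3) (Fin 3) R)ˣ) : dt U g =
    (Matrix.map (g : Matrix (Fin 3) (Fin 3) R) U.aug).det := rfl

lemma dt_Lam (g : Lam R) : dt U g.1 = 1 := by
  obtain ⟨g, hg⟩ := g
  show dt U g = 1
  induction hg using Subgroup.closure_induction with
  | mem z hz =>
    obtain ⟨i, j, h, r, rfl⟩ := hz
    rw [dt_apply, el_coe]
    have : Matrix.map (1 + Matrix.single i j r) U.aug =
        Matrix.transvection i j (U.aug r) := by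
      ext p q
      simp only [Matrix.map_apply, Matrix.add_apply, Matrix.transvection, map_add,
        Matrix.single_apply, Matrix.one_apply]
      congr 1
      · split_ifs <;> simp
      · split_ifs <;> simp
    rw [this, Matrix.det_transvection_of_ne _ _ h]
  | one => exact map_one _
  | mul p q _ _ hp hq => rw [map_mul, hp, hq, one_mul]
  | inv p _ hp =>
    have h1 : dt U p * dt U p⁻¹ = 1 := by rw [← map_mul, mul_inv_cancel, map_one]
    rwa [hp, one_mul] at h1

/-- an abelian subgroup normalised by the elementary matrices with entries in the matrix units is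
trivial -/
theorem abel_trivial (hk : Nat.card k = 8) (h2R : ∀ r : R, r + r = 0) (N : Subgroup (Lam R))
    (hN : ∀ {i j : Fin 3} (h : i ≠ j) (a b : ℕ), ∀ n ∈ N,
      ee h (U.e a b) * n * (ee h (U.e a b))⁻¹ ∈ N)
    (hc : ∀ n ∈ N, ∀ n' ∈ N, n * n' = n' * n) (g : Lam R) (hg : g ∈ N) : g = 1 := by
  have hoff : ∀ g ∈ N, ∀ i j : Fin 3, i ≠ j → (g.1.1 : Matrix (Fin 3) (Fin 3) R) j i = 0 :=
    fun g hg i j h => offdiag U h2R N hN hc g hg h
  set G : Matrix (Fin 3) (Fin 3) R := g.1.1 with hG
  have hdiag : ∀ i j : Fin 3, i ≠ j → ∀ a b : ℕ, (U.e a b) * G j j = G i i * U.e a b := by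
    intro i j h a b
    have hn := hN h a b g hg
    set n := ee h (U.e a b) * g * (ee h (U.e a b))⁻¹ with hn'
    have h1 : n * ee h (U.e a b) = ee h (U.e a b) * g := by rw [hn']; group
    have h2 : (n.1.1 : Matrix (Fin 3) (Fin 3) R) * (1 + Matrix.single i j (U.e a b)) =
        (1 + Matrix.single i j (U.e a b)) * G :=
      congrArg (fun x : Lam R => (x.1.1 : Matrix (Fin 3) (Fin 3) R)) h1
    rw [mul_add, add_mul, mul_one, one_mul] at h2
    have e1 := congrArg (fun M => M i j) h2
    have e2 := congrArg (fun M => M i i) h2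
    simp only [Matrix.add_apply, mul_single_entry', single_mul_entry', if_true, if_neg h]
      at e1 e2
    have o1 : (n.1.1 : Matrix (Fin 3) (Fin 3) R) i j = 0 := hoff n hn j i h.symm
    have o2 : G i j = 0 := hoff g hg j i h.symm
    have o3 : G j i = 0 := hoff g hg i j h
    rw [o1, o2, zero_add, zero_add] at e1
    rw [o3, mul_zero, add_zero, add_zero] at e2
    rw [← e1, e2]
  have hent : ∀ i j : Fin 3, i ≠ j → ∀ a b q : ℕ, U.ent (G j j) b q =
      if b = q then U.ent (G i i) a a else 0 := by
    intro i j h a b q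
    have h1 := congrArg (fun r => U.ent r a q) (hdiag i j h a b)
    simp only [U.ent_e_mul, U.ent_mul_e, if_true] at h1
    exact h1
  set γ := U.ent (G 0 0) 0 0 with hγ
  have hs1 : ∀ i j : Fin 3, i ≠ j → U.ent (G j j) 0 0 = U.ent (G i i) 0 0 := by
    intro i j h
    rw [hent i j h 0 0 0, if_pos rfl]
  have hs : ∀ i : Fin 3, U.ent (G i i) 0 0 = γ := by
    intro i
    by_cases hi : i = 0
    · rw [hi]
    · exact hs1 0 i (Ne.symm hi)
  have hsc : ∀ j : Fin 3, G j j = algebraMap k R γ := by
    intro j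
    obtain ⟨i, hij⟩ : ∃ i : Fin 3, i ≠ j := by
      revert j; decide
    apply U.ext
    intro b q
    rw [hent i j hij 0 b q, hs, U.ent_alg]
  have hoffG : ∀ p q : Fin 3, p ≠ q → G p q = 0 := fun p q h => hoff g hg q p (Ne.symm h)
  have hdet := dt_Lam U g
  have hmap : Matrix.map G U.aug = Matrix.scalar (Fin 3) γ := by
    ext p q
    rw [Matrix.map_apply, Matrix.scalar_apply, Matrix.diagonal_apply]
    by_cases h : p = q
    · subst h
      rw [if_pos rfl, hsc, U.aug_alg]
    · rw [if_neg h]
      exact (congrArg U.aug (hoffG p q h)).trans (map_zero _)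
  rw [dt_apply, hmap] at hdet
  have hcube : γ ^ 3 = 1 := by
    rw [Matrix.scalar_apply, Matrix.det_diagonal] at hdet
    simpa using hdet
  have hfin : Finite k := Nat.finite_of_card_ne_zero (by rw [hk]; norm_num)
  have : Fintype k := Fintype.ofFinite k
  have hγ0 : γ ≠ 0 := by
    rintro h0
    rw [h0] at hcube
    norm_num at hcube
  have hr7 : γ ^ 7 = 1 := by
    have := FiniteField.pow_card_sub_one_eq_one γ hγ0
    rwa [← Nat.card_eq_fintype_card, hk] at this
  have hr1 : γ = 1 := by
    calc γ = γ ^ 7 * ((γ ^ 3) ^ 2)⁻¹ := by field_simp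
      _ = 1 := by rw [hr7, hcube]; simp
  apply Subtype.ext
  apply Units.ext
  ext1 p q
  show G p q = (1 : Matrix (Fin 3) (Fin 3) R) p q
  rw [Matrix.one_apply]
  by_cases h : p = q
  · subst h
    rw [if_pos rfl, hsc, hr1, map_one]
  · rw [if_neg h]
    exact hoffG p q h

end jl

end Pool.Agent.H258.CR
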