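import Mathlib
import Pool.Agent.H258.CR.Gr
import Pool.Agent.H258.CR.Jl
import Pool.Agent.H258.CR.MU
import Pool.Graph.R_seed8.Y276.Rig.Icc

/-!
# The groups `M_p ⋊ EL_3(J)` are ICC
-/

set_option autoImplicit false
set_option linter.unusedSectionVars false
set_option linter.unusedSimpArgs false

namespace Pool.Agent.H258.CR

open Pool.Agent.H197R3 (XX Quad gg GG Inv' phi pb pb_mul pb_one pb_fst pb_snd vv vv_zero_left
  vv_zero_right sg tw2)
open Pool.Agent.Y276.Rig (exists_biadd quadOf quadOf_apply)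
open SemidirectProduct

section gen
variable {k R : Type} [Field k] [Ring R] [Algebra k R] (U : MU k R)

lemma ee_sum_mem {R : Type} [Ring R] (L : Subgroup (Lam R)) {i j : Fin 3} (h : i ≠ j) {ι : Type}
    (s : Finset ι) (f : ι → R) (hf : ∀ a ∈ s, ee h (f a) ∈ L) : ee h (∑ a ∈ s, f a) ∈ L := by
  classical
  induction s using Finset.induction_on with
  | empty => rw [Finset.sum_empty, ee_zero]; exact one_mem _
  | insert i s hi ih =>
    rw [Finset.sum_insert hi, ee_add]
    exact mul_mem (hf _ (Finset.mem_insert_self _ _))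
      (ih fun a ha => hf a (Finset.mem_insert_of_mem ha))

/-- the shift by `N` of the first `N` rows -/
noncomputable def fs (N : ℕ) : R := ∑ a ∈ Finset.range N, U.e (a + N) a

lemma ent_fs_mul (N : ℕ) (c : R) (r s : ℕ) : U.ent (fs U N * c) r s =
    ∑ a ∈ Finset.range N, if a + N = r then U.ent c a s else 0 := by
  rw [fs, Finset.sum_mul, U.ent_sum]
  apply Finset.sum_congr rfl
  intro a _
  rw [U.ent_e_mul]

lemma ent_fs_low (N : ℕ) (c : R) (r s : ℕ) (h : r < N) : U.ent (fs U N * c) r s = 0 := by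
  rw [ent_fs_mul U]
  apply Finset.sum_eq_zero
  intro a _
  rw [if_neg (by omega)]

lemma ent_fs_high (N : ℕ) (c : R) (a s : ℕ) (h : a < N) :
    U.ent (fs U N * c) (a + N) s = U.ent c a s := by
  rw [ent_fs_mul, Finset.sum_eq_single a]
  · rw [if_pos rfl]
  · intro b _ hb
    rw [if_neg (by omega)]
  · intro h1
    exact absurd (Finset.mem_range.2 h) h1

lemma exists_trunc (W : Set R) (hW : W.Finite) :
    ∃ N, ∀ w ∈ W, (∀ a, a < N → ∀ b, U.ent w a b = 0) → w = 0 := by
  have h1 : ∀ w : R, ∃ n : ℕ, (∀ a, a < n → ∀ b, U.ent w a b = 0) → w = 0 := by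
    intro w
    by_cases hw : w = 0
    · exact ⟨0, fun _ => hw⟩
    · have : ∃ a b, U.ent w a b ≠ 0 := by
        by_contra hcon
        push Not at hcon
        exact hw (U.ext fun a b => by rw [hcon, U.ent_zero])
      obtain ⟨a, b, hab⟩ := this
      exact ⟨a + 1, fun h => absurd (h a (Nat.lt_succ_self a) b) hab⟩
  choose f hf using h1
  obtain ⟨N, hN⟩ := (hW.image f).bddAbove
  refine ⟨N, fun w hw h => hf w fun a ha => h a ?_⟩
  exact lt_of_lt_of_le ha (hN ⟨w, hw, rfl⟩)

end gen

section fld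
variable {k R : Type} [Field k] [Ring R] [Algebra k R] (U : MU k R)

/-- inclusion of the `j`-th coordinate line -/
noncomputable def sgl (j : Fin 3) : R →+ V3 R :=
  AddMonoidHom.single (fun _ : Fin 3 => R) j

lemma sgl_apply (j : Fin 3) (c : R) : (sgl j c : V3 R) = Pi.single j c := rfl

/-- projection onto the `j`-th coordinate line -/
noncomputable def pr (j : Fin 3) : V3 R →+ V3 R :=
  (sgl j).comp (Pi.evalAddMonoidHom (fun _ : Fin 3 => R) j)

lemma pr_apply (j : Fin 3) (x : V3 R) : pr j x = Pi.single j (x j) := rfl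

lemma exists_proj [Finite k] (F : Submodule k (V3 R)) (hF : F.FG) (i j : Fin 3) :
    ∃ (N : ℕ) (P : V3 R →+ V3 R) (S : V3 R →+ R), ∀ b ∈ F, ∀ b' ∈ F,
      P (b + Pi.single i (fs U N * b' j)) = b ∧ S (b + Pi.single i (fs U N * b' j)) = b' j := by
  have hMf : Module.Finite k F := Module.Finite.iff_fg.2 hF
  have hfin : Finite F := Module.finite_of_finite k
  have hFf : (F : Set (V3 R)).Finite := Set.toFinite _
  obtain ⟨N, hN⟩ := exists_trunc U (((fun b : V3 R => b i) '' F) ∪
    ((fun b : V3 R => b j) '' F)) ((hFf.image _).union (hFf.image _))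
  let Fj : Submodule k R := F.map (LinearMap.proj j)
  let sgL : R →ₗ[k] V3 R :=
    (LinearMap.single k (fun _ : Fin 3 => R) i).comp (LinearMap.mulLeft k (fs U N))
  let L : (F × Fj) →ₗ[k] V3 R := LinearMap.coprod F.subtype (sgL.comp Fj.subtype)
  have hL : ∀ (b : F) (c : Fj), L (b, c) = b.1 + Pi.single i (fs U N * c.1) := by
    intro b c
    show LinearMap.coprod F.subtype (sgL.comp Fj.subtype) (b, c) = _
    rw [LinearMap.coprod_apply]
    rfl
  have hker : LinearMap.ker L = ⊥ := by
    rw [LinearMap.ker_eq_bot']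
    rintro ⟨b, c⟩ hbc
    rw [hL] at hbc
    have h1 : b.1 i + fs U N * c.1 = 0 := by
      have := congrFun hbc i
      simpa only [Pi.add_apply, Pi.single_eq_same, Pi.zero_apply] using this
    have hbi : b.1 i = 0 := by
      apply hN _ (Or.inl ⟨b.1, b.2, rfl⟩)
      intro a ha s
      have h2 := congrArg (fun r => U.ent r a s) h1
      simp only [U.ent_add, U.ent_zero] at h2
      rwa [ent_fs_low U N _ _ _ ha, add_zero] at h2
    have hfc : fs U N * c.1 = 0 := by rwa [hbi, zero_add] at h1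
    have hc : c.1 = 0 := by
      obtain ⟨b', hb', hbc'⟩ := c.2
      apply hN _ (Or.inr ⟨b', hb', hbc'⟩)
      intro a ha s
      rw [← ent_fs_high U N c.1 a s ha, hfc, U.ent_zero]
    rw [hfc, Pi.single_zero, add_zero] at hbc
    have hb : b = 0 := Subtype.ext hbc
    rw [hb, show c = 0 from Subtype.ext hc]
    rfl
  obtain ⟨S, hS⟩ := L.exists_leftInverse_of_injective hker
  refine ⟨N, (F.subtype.comp ((LinearMap.fst k _ _).comp S)).toAddMonoidHom,
    (Fj.subtype.comp ((LinearMap.snd k _ _).comp S)).toAddMonoidHom, ?_⟩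
  intro b hb b' hb'
  have h1 : S (b + Pi.single i (fs U N * b' j)) =
      ((⟨b, hb⟩ : F), (⟨b' j, ⟨b', hb', rfl⟩⟩ : Fj)) := by
    have h2 := congrArg (fun T => T ((⟨b, hb⟩ : F), (⟨b' j, ⟨b', hb', rfl⟩⟩ : Fj))) hS
    have h3 : S (L ((⟨b, hb⟩ : F), (⟨b' j, ⟨b', hb', rfl⟩⟩ : Fj))) =
      ((⟨b, hb⟩ : F), (⟨b' j, ⟨b', hb', rfl⟩⟩ : Fj)) := h2
    rw [hL] at h3
    exact h3
  constructor
  · show ((S (b + Pi.single i (fs U N * b' j))).1 : V3 R) = _
    rw [h1]
  · show ((S (b + Pi.single i (fs U N * b' j))).2 : R) = _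
    rw [h1]

/-- finite support -/
def Supp (k : Type) {R : Type} [Field k] [Ring R] [Algebra k R] (m : XX (V3 R) → Circle) : Prop :=
  ∃ F : Submodule k (V3 R), F.FG ∧ ∀ x y : XX (V3 R),
    (∀ b ∈ F, x.1 b = y.1 b ∧ x.2.1 b = y.2.1 b) → m x = m y

lemma supp_gen (a c : V3 R) (T : ZMod 2 → ZMod 2 → Circle) :
    Supp k (fun x : XX (V3 R) => T (x.1 a) (x.2.1 c)) := by
  refine ⟨Submodule.span k {a, c}, Submodule.fg_span (by simp), fun x y h => ?_⟩
  have h1 := (h a (Submodule.subset_span (by simp))).1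
  have h2 := (h c (Submodule.subset_span (by simp))).2
  show T _ _ = T _ _
  rw [h1, h2]

variable (p : V3 R →+ V3 R)

lemma supp_Mp {m : XX (V3 R) → Circle} (hm : m ∈ Mp p) : Supp k m := by
  induction hm using Subgroup.closure_induction with
  | mem z hz =>
    rcases hz with ⟨a, rfl⟩ | ⟨a, rfl⟩
    · exact supp_gen a a (fun s _ => sg s)
    · exact supp_gen (p a) a (fun s t => tw2 s * sg t)
  | one => exact ⟨⊥, Submodule.fg_bot, fun _ _ _ => rfl⟩
  | mul q r _ _ hp hq =>
    obtain ⟨F, hF, h1⟩ := hp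
    obtain ⟨F', hF', h2⟩ := hq
    refine ⟨F ⊔ F', hF.sup hF', fun x y h => ?_⟩
    rw [Pi.mul_apply, Pi.mul_apply,
      h1 x y (fun b hb => h b ((le_sup_left : F ≤ F ⊔ F') hb)),
      h2 x y (fun b hb => h b ((le_sup_right : F' ≤ F ⊔ F') hb))]
  | inv q _ hp =>
    obtain ⟨F, hF, h1⟩ := hp
    refine ⟨F, hF, fun x y h => ?_⟩
    rw [Pi.inv_apply, Pi.inv_apply, h1 x y h]

/-- the common properties of the elements of `M_p` -/
structure Nice (k : Type) {R : Type} [Field k] [Ring R] [Algebra k R]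
    (m : XX (V3 R) → Circle) : Prop where
  supp : Supp k m
  zero : m (0, 0) = 1
  add : ∀ Q Q', m (0, Q + Q') = m (0, Q) * m (0, Q')
  ind : (∀ Q, m (0, Q) = 1) → ∀ v Q, m (v, Q) = m (v, 0)
  add' : (∀ Q, m (0, Q) = 1) → ∀ v v', m (v + v', 0) = m (v, 0) * m (v', 0)

lemma nice_Mp {m : XX (V3 R) → Circle} (hm : m ∈ Mp p) : Nice k m := by
  have hadd : ∀ Q Q', m (0, Q + Q') = m (0, Q) * m (0, Q') := by
    intro Q Q'
    have := Mp_char p hm 0 0 Q Q'
    rwa [AddMonoidHom.zero_comp, vv_zero_left, add_zero, add_zero] at this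
  have hind : (∀ Q, m (0, Q) = 1) → ∀ v Q, m (v, Q) = m (v, 0) := by
    intro h v Q
    have := Mp_char p hm 0 v Q 0
    rw [AddMonoidHom.zero_comp, vv_zero_left, add_zero, add_zero, zero_add, h, one_mul] at this
    exact this
  refine ⟨supp_Mp p hm, ?_, hadd, hind, ?_⟩
  · have := hadd 0 0
    rw [add_zero] at this
    exact mul_eq_left.1 this.symm
  · intro h v v'
    have := Mp_char p hm v v' 0 0
    rwa [add_zero, zero_add, hind h (v + v')] at this

/-- the stabiliser of a function -/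
def stab (m : XX (V3 R) → Circle) : Subgroup (Lam R) where
  carrier := {g | ∀ x, m (pb g x) = m x}
  mul_mem' := by
    intro a b ha hb x
    have ha' : ∀ x, m (pb a x) = m x := ha
    have hb' : ∀ x, m (pb b x) = m x := hb
    show m (pb (a * b) x) = m x
    rw [pb_mul, hb', ha']
  one_mem' := by
    intro x
    show m (pb 1 x) = m x
    rw [pb_one]
  inv_mem' := by
    intro a ha x
    have ha' : ∀ x, m (pb a x) = m x := ha
    show m (pb a⁻¹ x) = m x
    rw [← ha' (pb a⁻¹ x), ← pb_mul, inv_mul_cancel, pb_one]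

lemma stab_index (m : XX (V3 R) → Circle)
    (hfin : (Set.range fun g : Lam R => fun x => m (pb g x)).Finite) :
    (stab m).index ≠ 0 := by
  have : Finite (Set.range fun g : Lam R => fun x => m (pb g x)) := hfin
  have hf : Finite (Lam R ⧸ stab m) := by
    refine Finite.of_injective (fun q : Lam R ⧸ stab m =>
      (⟨fun x => m (pb q.out x), ⟨q.out, rfl⟩⟩ :
        Set.range fun g : Lam R => fun x => m (pb g x))) ?_
    intro q r hqr
    have h1 : (fun x => m (pb q.out x)) = fun x => m (pb r.out x) := congrArg Subtype.val hqr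
    rw [← QuotientGroup.out_eq' q, ← QuotientGroup.out_eq' r, QuotientGroup.eq]
    intro x
    have h2 := congrFun h1 (pb q.out⁻¹ x)
    simp only [← pb_mul, inv_mul_cancel, pb_one] at h2
    exact h2.symm
  exact Subgroup.index_ne_zero_of_finite

lemma stab_fs (m : XX (V3 R) → Circle)
    (hfin : (Set.range fun g : Lam R => fun x => m (pb g x)).Finite) {i j : Fin 3}
    (h : i ≠ j) (N : ℕ) (x : XX (V3 R)) : m (pb (ee h (fs U N : R)) x) = m x := by
  have h1 : ee h (fs U N : R) ∈ stab m := by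
    apply ee_sum_mem
    intro a _
    have := fi_mem U (stab m) (stab_index m hfin) h 1 (a + N) a
    rwa [one_smul] at this
  exact h1 x

omit [Algebra k R] in
lemma V3_two' (h2R : ∀ r : R, r + r = 0) (a : V3 R) : 2 • a = 0 := by
  rw [two_nsmul]; exact V3_two h2R a

include U in
/-- an element of `M_p` with a finite orbit is trivial -/
theorem eq_one_of_finite [Finite k] (h2R : ∀ r : R, r + r = 0) (m : XX (V3 R) → Circle)
    (hm : Nice k m)
    (hfin : (Set.range fun g : Lam R => fun x => m (pb g x)).Finite) : m = 1 := by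
  obtain ⟨F, hF, hFm⟩ := hm.supp
  have hQ : ∀ Q, m (0, Q) = 1 := by
    intro Q
    obtain ⟨β, hl, hr, hβ⟩ := exists_biadd (V3_two' h2R) Q
    have hj : ∀ j : Fin 3, m (0, quadOf β hl hr (AddMonoidHom.id _) (pr j)) = 1 := by
      intro j
      obtain ⟨i, hij⟩ : ∃ i : Fin 3, i ≠ j := by
        revert j; decide
      obtain ⟨N, P, S, hPS⟩ := exists_proj U F hF i j
      have hst := stab_fs U m hfin hij N
      have hPS0 : ∀ b ∈ F, P b = b ∧ S b = 0 := by
        intro b hb
        have := hPS b hb 0 F.zero_mem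
        rwa [Pi.zero_apply, mul_zero, Pi.single_zero, add_zero] at this
      have e1 : m (0, quadOf β hl hr P ((sgl j).comp S)) = m (0, 0) := by
        apply hFm
        intro b hb
        refine ⟨rfl, ?_⟩
        show β (P b) (sgl j (S b)) = 0
        rw [(hPS0 b hb).2, map_zero]
        have := hr (P b) 0 0
        rw [add_zero] at this
        exact left_eq_add.1 this
      have e2 : m (pb (ee hij (fs U N)) (0, quadOf β hl hr P ((sgl j).comp S))) =
          m (0, quadOf β hl hr (AddMonoidHom.id _) (pr j)) := by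
        apply hFm
        intro b hb
        refine ⟨rfl, ?_⟩
        rw [pb_snd, ee_smul]
        show β (P (b + Pi.single i (fs U N * b j))) (sgl j (S (b + Pi.single i (fs U N * b j)))) =
          β b (Pi.single j (b j))
        rw [(hPS b hb b hb).1, (hPS b hb b hb).2, sgl_apply]
      rw [← e2, hst, e1, hm.zero]
    have hsum : Q = quadOf β hl hr (AddMonoidHom.id _) (pr 0) +
        quadOf β hl hr (AddMonoidHom.id _) (pr 1) + quadOf β hl hr (AddMonoidHom.id _) (pr 2) := by
      apply Subtype.ext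
      funext a
      show Q.1 a = β a (Pi.single 0 (a 0)) + β a (Pi.single 1 (a 1)) + β a (Pi.single 2 (a 2))
      rw [hβ, ← hr, ← hr, ← vec_decomp]
    rw [hsum, hm.add, hm.add, hj, hj, hj, one_mul, one_mul]
  have hv : ∀ v, m (v, 0) = 1 := by
    intro v
    have hj : ∀ j : Fin 3, m (v.comp (pr j), 0) = 1 := by
      intro j
      obtain ⟨i, hij⟩ : ∃ i : Fin 3, i ≠ j := by
        revert j; decide
      obtain ⟨N, P, S, hPS⟩ := exists_proj U F hF i j
      have hst := stab_fs U m hfin hij N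
      have hPS0 : ∀ b ∈ F, P b = b ∧ S b = 0 := by
        intro b hb
        have := hPS b hb 0 F.zero_mem
        rwa [Pi.zero_apply, mul_zero, Pi.single_zero, add_zero] at this
      have e1 : m (v.comp ((sgl j).comp S), 0) = m (0, 0) := by
        apply hFm
        intro b hb
        refine ⟨?_, rfl⟩
        show v (sgl j (S b)) = 0
        rw [(hPS0 b hb).2, map_zero, map_zero]
      have e2 : m (pb (ee hij (fs U N)) (v.comp ((sgl j).comp S), 0)) = m (v.comp (pr j), 0) := by
        apply hFm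
        intro b hb
        refine ⟨?_, rfl⟩
        rw [pb_fst, ee_smul]
        show v (sgl j (S (b + Pi.single i (fs U N * b j)))) = v (Pi.single j (b j))
        rw [(hPS b hb b hb).2, sgl_apply]
      rw [← e2, hst, e1, hm.zero]
    have hsum : v = v.comp (pr 0) + v.comp (pr 1) + v.comp (pr 2) := by
      refine DFunLike.ext _ _ fun a => ?_
      show v a = v (Pi.single 0 (a 0)) + v (Pi.single 1 (a 1)) + v (Pi.single 2 (a 2))
      rw [← map_add, ← map_add, ← vec_decomp]
    rw [hsum, hm.add' hQ, hm.add' hQ, hj, hj, hj, one_mul, one_mul]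
  funext ⟨v, Q⟩
  rw [hm.ind hQ, hv]; rfl

include U in
/-- the elementary group is ICC -/
lemma icc_Lam (h2R : ∀ r : R, r + r = 0) (hk : Nat.card k = 8) (x : Lam R)
    (hx : {y | ∃ g, y = g * x * g⁻¹}.Finite) : x = 1 := by
  have hfin : Finite {y | ∃ g, y = g * x * g⁻¹} := hx
  have hind : (Subgroup.centralizer {x} : Subgroup (Lam R)).index ≠ 0 := by
    have hf : Finite (Lam R ⧸ (Subgroup.centralizer {x} : Subgroup (Lam R))) := by
      refine Finite.of_injective
        (fun q : Lam R ⧸ (Subgroup.centralizer {x} : Subgroup (Lam R)) =>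
          (⟨q.out * x * q.out⁻¹, ⟨_, rfl⟩⟩ : {y | ∃ g, y = g * x * g⁻¹})) ?_
      intro q r hqr
      have h1 : q.out * x * q.out⁻¹ = r.out * x * r.out⁻¹ := congrArg Subtype.val hqr
      rw [← QuotientGroup.out_eq' q, ← QuotientGroup.out_eq' r, QuotientGroup.eq,
        Subgroup.mem_centralizer_singleton_iff]
      calc (q.out⁻¹ * r.out) * x = q.out⁻¹ * (r.out * x * r.out⁻¹) * r.out := by group
        _ = q.out⁻¹ * (q.out * x * q.out⁻¹) * r.out := by rw [h1]
        _ = x * (q.out⁻¹ * r.out) := by group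
    exact Subgroup.index_ne_zero_of_finite
  refine abel_trivial U hk h2R (Subgroup.zpowers x) ?_ ?_ x (Subgroup.mem_zpowers x)
  · rintro i j h a b n ⟨z, rfl⟩
    have h0 := fi_mem U _ hind h 1 a b
    rw [one_smul, Subgroup.mem_centralizer_singleton_iff] at h0
    have h1 : Commute (ee h (U.e a b)) x := h0
    have h2 : ee h (U.e a b) * x ^ z = x ^ z * ee h (U.e a b) := (h1.zpow_right z).eq
    show ee h (U.e a b) * x ^ z * (ee h (U.e a b))⁻¹ ∈ _
    rw [h2, mul_inv_cancel_right]
    exact ⟨z, rfl⟩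
  · rintro n ⟨z, rfl⟩ n' ⟨z', rfl⟩
    exact ((Commute.refl x).zpow_zpow z z').eq

include U in
/-- the semidirect products are ICC -/
theorem icc_Gp [Finite k] (h2R : ∀ r : R, r + r = 0) (hk : Nat.card k = 8)
    (hp : ∀ (g : Lam R) (a : V3 R), p (g • a) = g • p a) (x : Gp p hp)
    (hx : x ≠ 1) : {y | ∃ g, y = g * x * g⁻¹}.Infinite := by
  intro hfin
  apply hx
  have h1 : x.right = 1 := by
    apply icc_Lam U h2R hk
    refine (hfin.image (rightHom : Gp p hp →* Lam R)).subset ?_
    rintro _ ⟨g, rfl⟩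
    refine ⟨inr g * x * (inr g)⁻¹, ⟨inr g, rfl⟩, ?_⟩
    rw [map_mul, map_mul, map_inv, rightHom_inr]; rfl
  have h2 : x = inl x.left := by
    conv_lhs => rw [← inl_left_mul_inr_right x]
    rw [h1, map_one, mul_one]
  have h3 : x.left.1 = 1 := by
    apply eq_one_of_finite U h2R _ (nice_Mp p x.left.2)
    refine (hfin.image (fun y : Gp p hp => y.left.1)).subset ?_
    rintro _ ⟨g, rfl⟩
    refine ⟨inr g * x * (inr g)⁻¹, ⟨inr g, rfl⟩, ?_⟩
    show (inr g * x * (inr g)⁻¹).left.1 = _
    rw [h2, ← map_inv, ← inl_aut, left_inl]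
    rfl
  rw [h2, show x.left = 1 from Subtype.ext h3, map_one]

end fld

end Pool.Agent.H258.CR
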