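import Mathlib
import Pool.Agent.H258.CR.Icc

/-!
# The idempotents, invariant subgroups and their length
-/

set_option autoImplicit false
set_option linter.unusedSectionVars false
set_option linter.unusedSimpArgs false

namespace Pool.Agent.H258.CR

section pn
variable {k R : Type} [Field k] [Ring R] [Algebra k R] (U : MU k R)

/-- the idempotent of rank `n` -/
noncomputable def pn (n : ℕ) : R := ∑ b ∈ Finset.range n, U.e b b

lemma ent_mul_pn (c : R) (n r s : ℕ) : U.ent (c * pn U n) r s =
    if s < n then U.ent c r s else 0 := by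
  rw [pn, Finset.mul_sum, U.ent_sum]
  simp only [U.ent_mul_e]
  rw [Finset.sum_ite_eq']
  simp only [Finset.mem_range]

/-- right multiplication by the idempotent -/
noncomputable def pA (n : ℕ) : V3 R →+ V3 R where
  toFun a := fun i => a i * pn U n
  map_zero' := by funext i; exact zero_mul _
  map_add' a b := by funext i; exact add_mul _ _ _

lemma pA_apply (n : ℕ) (a : V3 R) (i : Fin 3) : pA U n a i = a i * pn U n := rfl

lemma pA_smul (n : ℕ) (g : Lam R) (a : V3 R) : pA U n (g • a) = g • pA U n a := by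
  funext i
  show (∑ j, g.1.1 i j * a j) * pn U n = ∑ j, g.1.1 i j * (a j * pn U n)
  rw [Finset.sum_mul]
  apply Finset.sum_congr rfl
  intro j _
  rw [mul_assoc]

lemma pA_single (n : ℕ) (i : Fin 3) (c : R) : pA U n (Pi.single i c) =
    Pi.single i (c * pn U n) := by
  funext j
  rw [pA_apply]
  by_cases h : j = i
  · subst h; simp
  · rw [Pi.single_eq_of_ne h, Pi.single_eq_of_ne h, zero_mul]

lemma pn_pn {j n : ℕ} (h : j ≤ n) (c : R) : c * pn U j * pn U n = c * pn U j := by
  apply U.ext
  intro r s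
  rw [ent_mul_pn, ent_mul_pn]
  by_cases h1 : s < j
  · rw [if_pos h1, if_pos (lt_of_lt_of_le h1 h)]
  · rw [if_neg h1, ite_self]

lemma pA_pA {j n : ℕ} (h : j ≤ n) (a : V3 R) : pA U n (pA U j a) = pA U j a := by
  funext i
  exact pn_pn U h (a i)

lemma ent_finite' (c : R) (n : ℕ) : ∃ N, ∀ b, b < n → ∀ a, N ≤ a → U.ent c a b = 0 := by
  choose f hf using fun b => U.ent_finite c b
  refine ⟨(Finset.range n).sup f, fun b hb a ha => hf b a ?_⟩
  exact (Finset.le_sup (f := f) (Finset.mem_range.2 hb)).trans ha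

/-- the element of the first row with given entries -/
noncomputable def rw1 {m : ℕ} (u : Fin m → k) : R := ∑ b : Fin m, u b • U.e 0 b

lemma ent_rw1 {m : ℕ} (u : Fin m → k) (r s : ℕ) : U.ent (rw1 U u) r s =
    if h : s < m then (if r = 0 then u ⟨s, h⟩ else 0) else 0 := by
  rw [rw1, U.ent_sum]
  simp only [U.ent_smul, U.ent_e]
  by_cases h : s < m
  · rw [dif_pos h, Finset.sum_eq_single (⟨s, h⟩ : Fin m)]
    · by_cases hr : r = 0
      · subst hr; simp
      · simp [hr, Ne.symm hr]
    · intro b _ hb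
      have : ¬ (b : ℕ) = s := fun h' => hb (Fin.ext h')
      simp [this]
    · intro h'; exact absurd (Finset.mem_univ _) h'
  · rw [dif_neg h]
    apply Finset.sum_eq_zero
    intro b _
    have : ¬ (b : ℕ) = s := by
      intro h'; apply h; rw [← h']; exact b.2
    simp [this]

/-- expansion of an element by its rows -/
lemma row_expand (c : R) (m : ℕ) (hc : c * pn U m = c) : ∃ N, c =
    ∑ a ∈ Finset.range N, U.e a 0 * rw1 U (fun b : Fin m => U.ent c a b) := by
  obtain ⟨N, hN⟩ := ent_finite' U c m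
  refine ⟨N, U.ext fun r s => ?_⟩
  rw [U.ent_sum]
  simp only [U.ent_e_mul, ent_rw1]
  rw [Finset.sum_ite_eq' (Finset.range N) r]
  have h1 := ent_mul_pn U c m r s
  rw [hc] at h1
  by_cases hs : s < m
  · simp only [hs, dif_pos, if_true, Finset.mem_range]
    by_cases hr : r < N
    · rw [if_pos hr]
    · rw [if_neg hr, hN s hs r (not_lt.1 hr)]
  · rw [if_neg hs] at h1
    simp only [hs, h1]
    simp

/-- invariance under the elementary matrices with entries in the matrix units -/
def Inva (W : AddSubgroup (V3 R)) : Prop :=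
  ∀ (i j : Fin 3) (h : i ≠ j) (γ : k) (a b : ℕ), ∀ d ∈ W, ee h (γ • U.e a b) • d ∈ W

lemma inva_mul {W : AddSubgroup (V3 R)} (hW : Inva U W) (i j : Fin 3) (γ : k) (a b : ℕ)
    (d : V3 R) (hd : d ∈ W) : (Pi.single i ((γ • U.e a b) * d j) : V3 R) ∈ W := by
  have key : ∀ (i j : Fin 3) (_ : i ≠ j) (γ : k) (a b : ℕ) (d : V3 R), d ∈ W →
      (Pi.single i ((γ • U.e a b) * d j) : V3 R) ∈ W := by
    intro i j h γ a b d hd
    have h1 := hW i j h γ a b d hd
    rw [ee_smul] at h1
    have h2 := W.sub_mem h1 hd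
    rwa [add_sub_cancel_left] at h2
  by_cases h : i = j
  · subst h
    obtain ⟨l, hl⟩ : ∃ l : Fin 3, l ≠ i := by
      revert i; decide
    have h1 := key l i hl 1 b b d hd
    have h2 := key i l hl.symm γ a b _ h1
    rw [Pi.single_eq_same, one_smul, ← mul_assoc, smul_mul_assoc, U.e_mul, if_pos rfl] at h2
    exact h2
  · exact key i j h γ a b d hd

/-- the space of first rows -/
noncomputable def US (W : AddSubgroup (V3 R)) (hW : Inva U W) (m : ℕ) :
    Submodule k (Fin m → k) where
  carrier := {u | (Pi.single 0 (rw1 U u) : V3 R) ∈ W}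
  zero_mem' := by
    show (Pi.single 0 (rw1 U (0 : Fin m → k)) : V3 R) ∈ W
    have : rw1 U (0 : Fin m → k) = 0 := by simp [rw1]
    rw [this, Pi.single_zero]
    exact W.zero_mem
  add_mem' := by
    intro u v hu hv
    have hu' : (Pi.single 0 (rw1 U u) : V3 R) ∈ W := hu
    have hv' : (Pi.single 0 (rw1 U v) : V3 R) ∈ W := hv
    show (Pi.single 0 (rw1 U (u + v)) : V3 R) ∈ W
    have : rw1 U (u + v) = rw1 U u + rw1 U v := by
      simp [rw1, add_smul, Finset.sum_add_distrib]
    rw [this, Pi.single_add]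
    exact W.add_mem hu' hv'
  smul_mem' := by
    intro γ u hu
    have hu' : (Pi.single 0 (rw1 U u) : V3 R) ∈ W := hu
    show (Pi.single 0 (rw1 U (γ • u)) : V3 R) ∈ W
    have h1 := inva_mul U hW 0 0 γ 0 0 _ hu'
    have : rw1 U (γ • u) = (γ • U.e 0 0) * rw1 U u := by
      rw [rw1, rw1, Finset.mul_sum]
      apply Finset.sum_congr rfl
      intro b _
      rw [smul_mul_assoc, U.smul_mul_e, if_pos rfl, smul_smul]
      rfl
    rw [this]
    rwa [Pi.single_eq_same] at h1

lemma mem_US {W : AddSubgroup (V3 R)} {hW : Inva U W} {m : ℕ} {u : Fin m → k} :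
    u ∈ US U W hW m ↔ (Pi.single 0 (rw1 U u) : V3 R) ∈ W := Iff.rfl

lemma row_mem {W : AddSubgroup (V3 R)} (hW : Inva U W) (m : ℕ) (d : V3 R) (hd : d ∈ W)
    (hm : pA U m d = d) (i : Fin 3) (a : ℕ) : (fun b : Fin m => U.ent (d i) a b) ∈ US U W hW m := by
  rw [mem_US]
  have h1 := inva_mul U hW 0 i 1 0 a d hd
  have h2 : rw1 U (fun b : Fin m => U.ent (d i) a b) = ((1 : k) • U.e 0 a) * d i := by
    apply U.ext
    intro r s
    rw [one_smul, U.ent_e_mul, ent_rw1]
    have h3 : U.ent (d i) a s = if s < m then U.ent (d i) a s else 0 := by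
      rw [← ent_mul_pn, ← pA_apply, hm]
    by_cases hs : s < m
    · simp only [hs, dif_pos]
      by_cases hr : r = 0
      · subst hr; simp
      · simp [hr, Ne.symm hr]
    · rw [if_neg hs] at h3
      simp [hs, h3]
  rw [h2]
  exact h1

lemma mem_of_rows {W : AddSubgroup (V3 R)} (hW : Inva U W) (m : ℕ) (d : V3 R)
    (hm : pA U m d = d) (h : ∀ i a, (fun b : Fin m => U.ent (d i) a b) ∈ US U W hW m) :
    d ∈ W := by
  have h1 : ∀ i, (Pi.single i (d i) : V3 R) ∈ W := by
    intro i
    obtain ⟨N, hN⟩ := row_expand U (d i) m (by rw [← pA_apply, hm])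
    rw [hN]
    have h2 : (Pi.single i (∑ a ∈ Finset.range N, U.e a 0 *
        rw1 U (fun b : Fin m => U.ent (d i) a b)) : V3 R) = ∑ a ∈ Finset.range N,
        Pi.single i (U.e a 0 * rw1 U (fun b : Fin m => U.ent (d i) a b)) :=
      map_sum (AddMonoidHom.single (fun _ : Fin 3 => R) i) _ _
    rw [h2]
    apply W.sum_mem
    intro a _
    have h3 := inva_mul U hW i 0 1 a 0 _ ((mem_US U).1 (h i a))
    rwa [Pi.single_eq_same, one_smul] at h3
  rw [vec_decomp d]
  exact W.add_mem (W.add_mem (h1 0) (h1 1)) (h1 2)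

/-- the length of a chain of invariant subgroups -/
theorem length_le (m n : ℕ) (W : ℕ → AddSubgroup (V3 R)) (hW : ∀ j, Inva U (W j))
    (hm : ∀ j, ∀ d ∈ W j, pA U m d = d) (hmono : ∀ j, j < n → W j ≤ W (j + 1))
    (hne : ∀ j, j < n → ∃ d ∈ W (j + 1), d ∉ W j) : n ≤ m := by
  have h1 : ∀ j, j ≤ n → j ≤ Module.finrank k (US U (W j) (hW j) m) := by
    intro j
    induction j with
    | zero => intro _; exact Nat.zero_le _
    | succ j ih =>
      intro hj
      have hlt : US U (W j) (hW j) m < US U (W (j + 1)) (hW (j + 1)) m := by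
        refine lt_of_le_of_ne (fun u hu => hmono j hj hu) ?_
        intro heq
        obtain ⟨d, hd, hd'⟩ := hne j hj
        apply hd'
        apply mem_of_rows U (hW j) m d (hm _ d hd)
        intro i a
        rw [heq]
        exact row_mem U (hW (j + 1)) m d hd (hm _ d hd) i a
      have := Submodule.finrank_lt_finrank_of_lt hlt
      have := ih (by omega)
      omega
  have h2 := h1 n le_rfl
  have h3 := Submodule.finrank_le (US U (W n) (hW n) m)
  rw [Module.finrank_fin_fun] at h3
  omega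

end pn

end Pool.Agent.H258.CR
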