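import Mathlib
import Pool.Agent.H258.CR.Pn

/-!
# The groups are pairwise not commensurable
-/

set_option autoImplicit false
set_option linter.unusedSectionVars false
set_option linter.unusedSimpArgs false

namespace Pool.Agent.H258.CR

open Pool.Agent.H197R3 (XX Quad gg GG Inv' phi pb gg_injective)
open Pool.Agent.Y276.Rig (IsIcc VirtuallyIsomorphic)
open SemidirectProduct

section sq
variable {A : Type} [AddCommGroup A] (p : A →+ A) {Λ : Type} [Group Λ] [DistribMulAction Λ A]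
  (hp : ∀ (g : Λ) (a : A), p (g • a) = g • p a)

/-- the elements of order two -/
noncomputable def gP (c : A) : Mp p := ⟨gg c, gg_memp p c⟩

/-- the generators of order four -/
noncomputable def uP (c : A) : Mp p := ⟨up p c, up_mem p c⟩

lemma gP_add (a b : A) : gP p (a + b) = gP p a * gP p b := Subtype.ext (gg_add a b)

lemma gP_zero : gP p (0 : A) = 1 := Subtype.ext gg_zero

lemma uP_sq (a : A) : uP p a * uP p a = gP p (p a) := Subtype.ext (up_sq p a)

lemma gP_neg (a : A) : gP p (-a) = (gP p a)⁻¹ := by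
  rw [eq_inv_iff_mul_eq_one, ← gP_add, neg_add_cancel, gP_zero]

lemma gP_phi (g : Λ) (c : A) : phi (Mp p) (inv_Mp p hp) g (gP p c) = gP p (g • c) := by
  apply Subtype.ext
  funext x
  rfl

lemma gP_inj (h2 : ∀ a : A, 2 • a = 0) : Function.Injective (gP p) := by
  intro a b h
  exact gg_injective h2 (congrArg Subtype.val h)

lemma sq_Mp (m : Mp p) : ∃ c, m * m = gP p (p c) := by
  obtain ⟨m, hm⟩ := m
  induction hm using Subgroup.closure_induction with
  | mem z hz =>
    rcases hz with ⟨a, rfl⟩ | ⟨a, rfl⟩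
    · refine ⟨0, ?_⟩
      rw [map_zero, gP_zero]
      exact Subtype.ext (gg_sq a)
    · exact ⟨a, uP_sq p a⟩
  | one =>
    refine ⟨0, ?_⟩
    rw [map_zero, gP_zero]
    exact Subtype.ext (one_mul _)
  | mul q r hq hr ihq ihr =>
    obtain ⟨c, hc⟩ := ihq
    obtain ⟨d, hd⟩ := ihr
    refine ⟨c + d, ?_⟩
    have e : (⟨q * r, mul_mem hq hr⟩ : Mp p) = ⟨q, hq⟩ * ⟨r, hr⟩ := rfl
    rw [e, mul_mul_mul_comm, hc, hd, map_add, gP_add]
  | inv q hq ih =>
    obtain ⟨c, hc⟩ := ih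
    refine ⟨-c, ?_⟩
    have e : (⟨q⁻¹, inv_mem hq⟩ : Mp p) = (⟨q, hq⟩ : Mp p)⁻¹ := rfl
    rw [e, ← mul_inv, hc, map_neg, gP_neg]

lemma conj_inl (y : Gp p hp) (m : Mp p) : y * inl m * y⁻¹ =
    inl (phi (Mp p) (inv_Mp p hp) y.right m) := by
  conv_lhs => rw [← inl_left_mul_inr_right y]
  rw [mul_inv_rev, inl_aut]
  have h1 : (inl y.left * inr y.right * inl m * ((inr y.right)⁻¹ * (inl y.left)⁻¹) : Gp p hp) =
      inl y.left * (inr y.right * inl m * inr y.right⁻¹) * (inl y.left)⁻¹ := by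
    rw [map_inv]; group
  rw [h1, ← inl_aut, ← map_inv, ← map_mul, ← map_mul, mul_comm y.left, mul_inv_cancel_right]

lemma eq_inl (x : Gp p hp) (hx : x.right = 1) : x = inl x.left := by
  conv_lhs => rw [← inl_left_mul_inr_right x]
  rw [hx, map_one, mul_one]

end sq

section ker
variable {k R : Type} [Field k] [Ring R] [Algebra k R] (U : MU k R)
variable (p q : V3 R →+ V3 R) (hp : ∀ (g : Lam R) (a : V3 R), p (g • a) = g • p a)
  (hq : ∀ (g : Lam R) (a : V3 R), q (g • a) = g • q a)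

include U in
lemma lift_ee (H : Subgroup (Gp p hp)) (hH : H.index ≠ 0) {i j : Fin 3} (h : i ≠ j) (γ : k)
    (a b : ℕ) : ∃ y : H, y.1.right = ee h (γ • U.e a b) := by
  have h1 : (H.map (rightHom : Gp p hp →* Lam R)).index ≠ 0 := by
    intro h0
    have := Subgroup.index_map_dvd H (rightHom_surjective : Function.Surjective
      (rightHom : Gp p hp →* Lam R))
    rw [h0] at this
    exact hH (Nat.eq_zero_of_zero_dvd this)
  obtain ⟨y, hy, hy'⟩ := fi_mem U _ h1 h γ a b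
  exact ⟨⟨y, hy⟩, hy'⟩

include U in
lemma right_one (h2R : ∀ r : R, r + r = 0) (hk : Nat.card k = 8) (H : Subgroup (Gp p hp))
    (H' : Subgroup (Gp q hq)) (hH' : H'.index ≠ 0) (e : H ≃* H') (x : H) (hx : x.1.right = 1) :
    (e x).1.right = 1 := by
  let f : H →* Lam R := (rightHom : Gp q hq →* Lam R).comp (H'.subtype.comp e.toMonoidHom)
  let K : Subgroup H := ((rightHom : Gp p hp →* Lam R).comp H.subtype).ker
  have hf : ∀ z : H, f z = (e z).1.right := fun z => rfl
  have hKx : ∀ z : H, z ∈ K ↔ z.1.right = 1 := fun z => Iff.rfl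
  refine abel_trivial U hk h2R (K.map f) ?_ ?_ _ ⟨x, hx, rfl⟩
  · rintro i j h a b _ ⟨z, hz, rfl⟩
    obtain ⟨y, hy⟩ := lift_ee U q hq H' hH' h 1 a b
    rw [one_smul] at hy
    refine ⟨e.symm y * z * (e.symm y)⁻¹, ?_, ?_⟩
    · exact (MonoidHom.normal_ker _).conj_mem z hz _
    · rw [map_mul, map_mul, map_inv, hf (e.symm y), MulEquiv.apply_symm_apply, hy]
  · rintro _ ⟨z, hz, rfl⟩ _ ⟨z', hz', rfl⟩
    rw [← map_mul, ← map_mul]
    congr 1
    apply Subtype.ext
    show z.1 * z'.1 = z'.1 * z.1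
    rw [eq_inl p hp z.1 hz, eq_inl p hp z'.1 hz', ← map_mul, ← map_mul, mul_comm]

end ker

section main
variable {k R : Type} [Field k] [Ring R] [Algebra k R] (U : MU k R)

/-- the groups -/
abbrev Gr (n : ℕ) := Gp (pA U n) (pA_smul U n)

/-- the elements of `R³` realised as squares of elements of `H ∩ M` -/
noncomputable def SQ (h2R : ∀ r : R, r + r = 0) (n : ℕ) (H : Subgroup (Gr U n)) :
    AddSubgroup (V3 R) where
  carrier := {c | ∃ m : Mp (pA U n), (inl m : Gr U n) ∈ H ∧ m * m = gP _ (pA U n c)}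
  zero_mem' := ⟨1, by rw [map_one]; exact one_mem _, by rw [map_zero, gP_zero, one_mul]⟩
  add_mem' := by
    rintro c d ⟨m, hm, hmc⟩ ⟨m', hm', hmd⟩
    refine ⟨m * m', by rw [map_mul]; exact mul_mem hm hm', ?_⟩
    rw [mul_mul_mul_comm, hmc, hmd, map_add, gP_add]
  neg_mem' := by
    rintro c ⟨m, hm, hmc⟩
    refine ⟨m, hm, ?_⟩
    rw [hmc]
    congr 1
    rw [neg_eq_of_add_eq_zero_left (V3_two h2R c)]

lemma SQ_inva (h2R : ∀ r : R, r + r = 0) (n : ℕ) (H : Subgroup (Gr U n)) (hH : H.index ≠ 0) :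
    Inva U (SQ U h2R n H) := by
  rintro i j h γ a b c ⟨m, hm, hmc⟩
  obtain ⟨y, hy⟩ := lift_ee U (pA U n) (pA_smul U n) H hH h γ a b
  refine ⟨phi _ (inv_Mp _ (pA_smul U n)) (ee h (γ • U.e a b)) m, ?_, ?_⟩
  · rw [← hy, ← conj_inl]
    exact mul_mem (mul_mem y.2 hm) (inv_mem y.2)
  · rw [← map_mul, hmc, gP_phi _ (pA_smul U n), pA_smul]

lemma SQ_diff (h2R : ∀ r : R, r + r = 0) (n : ℕ) (H : Subgroup (Gr U n)) (hH : H.index ≠ 0)
    (i : Fin 3) (b : ℕ) : ∃ c c', c ≠ c' ∧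
      (Pi.single i (U.e c b + U.e c' b) : V3 R) ∈ SQ U h2R n H := by
  have hfi : H.FiniteIndex := ⟨hH⟩
  have hfin : Finite (Gr U n ⧸ H) := Subgroup.finite_quotient_of_finiteIndex
  obtain ⟨c, c', hcc, hc⟩ := Finite.exists_ne_map_eq_of_infinite
    (fun c : ℕ => (QuotientGroup.mk (inl (uP (pA U n) (Pi.single i (U.e c b)))) : Gr U n ⧸ H))
  refine ⟨c, c', hcc, ⟨(uP (pA U n) (Pi.single i (U.e c b)))⁻¹ *
    uP (pA U n) (Pi.single i (U.e c' b)), ?_, ?_⟩⟩
  · have h1 := QuotientGroup.eq.1 hc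
    rwa [← map_inv, ← map_mul] at h1
  · rw [mul_mul_mul_comm, ← mul_inv, uP_sq, uP_sq, ← gP_neg, ← gP_add, Pi.single_add, map_add,
      neg_eq_of_add_eq_zero_left (V3_two h2R _)]

lemma SQ_single (h2R : ∀ r : R, r + r = 0) (n : ℕ) (H : Subgroup (Gr U n)) (hH : H.index ≠ 0)
    (i : Fin 3) (γ : k) (a b : ℕ) : (Pi.single i (γ • U.e a b) : V3 R) ∈ SQ U h2R n H := by
  obtain ⟨c, c', hcc, h1⟩ := SQ_diff U h2R n H hH i b
  have h2 := inva_mul U (SQ_inva U h2R n H hH) i i γ a c _ h1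
  rw [Pi.single_eq_same, mul_add, smul_mul_assoc, smul_mul_assoc, U.e_mul, U.e_mul, if_pos rfl,
    if_neg hcc, smul_zero, add_zero] at h2
  exact h2

lemma SQ_top (h2R : ∀ r : R, r + r = 0) (n : ℕ) (H : Subgroup (Gr U n)) (hH : H.index ≠ 0)
    (c : V3 R) : c ∈ SQ U h2R n H := by
  have h1 : pA U n c ∈ SQ U h2R n H := by
    rw [vec_decomp (pA U n c)]
    have h2 : ∀ i, (Pi.single i (pA U n c i) : V3 R) ∈ SQ U h2R n H := by
      intro i
      obtain ⟨N, hN⟩ := row_expand U (pA U n c i) n (by rw [pA_apply]; exact pn_pn U le_rfl _)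
      rw [hN]
      have h3 : (Pi.single i (∑ a ∈ Finset.range N, U.e a 0 *
          rw1 U (fun b : Fin n => U.ent (pA U n c i) a b)) : V3 R) = ∑ a ∈ Finset.range N,
          ∑ b : Fin n, Pi.single i (U.ent (pA U n c i) a b • U.e a b) := by
        have h4 := map_sum (AddMonoidHom.single (fun _ : Fin 3 => R) i)
          (fun a => U.e a 0 * rw1 U (fun b : Fin n => U.ent (pA U n c i) a b)) (Finset.range N)
        refine h4.trans ?_
        apply Finset.sum_congr rfl
        intro a _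
        have h5 := map_sum (AddMonoidHom.single (fun _ : Fin 3 => R) i)
          (fun b : Fin n => U.ent (pA U n c i) a b • U.e a b) Finset.univ
        refine Eq.trans ?_ h5
        congr 1
        rw [rw1, Finset.mul_sum]
        apply Finset.sum_congr rfl
        intro b _
        rw [U.smul_mul_e, if_pos rfl]
      rw [h3]
      apply AddSubgroup.sum_mem
      intro a _
      apply AddSubgroup.sum_mem
      intro b _
      exact SQ_single U h2R n H hH i _ a b
    exact AddSubgroup.add_mem _ (AddSubgroup.add_mem _ (h2 0) (h2 1)) (h2 2)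
  obtain ⟨m, hm, hmc⟩ := h1
  refine ⟨m, hm, ?_⟩
  rw [hmc, pA_pA U le_rfl]

/-- the invariant subgroups defined by the isomorphism -/
noncomputable def WW (n m : ℕ) (H : Subgroup (Gr U n)) (H' : Subgroup (Gr U m)) (e : H ≃* H')
    (j : ℕ) : AddSubgroup (V3 R) where
  carrier := {d | pA U m d = d ∧ ∃ c, pA U j c = c ∧ ∃ x : H, x.1 = inl (gP _ c) ∧
    (e x).1 = inl (gP _ d)}
  zero_mem' := ⟨map_zero _, 0, map_zero _, 1, by rw [gP_zero, map_one]; rfl,
    by rw [map_one, gP_zero, map_one]; rfl⟩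
  add_mem' := by
    rintro d d' ⟨hd, c, hc, x, hx, hex⟩ ⟨hd', c', hc', x', hx', hex'⟩
    refine ⟨by rw [map_add, hd, hd'], c + c', by rw [map_add, hc, hc'], x * x', ?_, ?_⟩
    · rw [gP_add, map_mul, ← hx, ← hx']; rfl
    · rw [gP_add, map_mul, map_mul, ← hex, ← hex']; rfl
  neg_mem' := by
    rintro d ⟨hd, c, hc, x, hx, hex⟩
    refine ⟨by rw [map_neg, hd], -c, by rw [map_neg, hc], x⁻¹, ?_, ?_⟩
    · rw [gP_neg, map_inv, ← hx]; rfl
    · rw [gP_neg, map_inv, map_inv, ← hex]; rfl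

lemma WW_inva (n m : ℕ) (H : Subgroup (Gr U n)) (H' : Subgroup (Gr U m)) (hH' : H'.index ≠ 0)
    (e : H ≃* H') (j : ℕ) : Inva U (WW U n m H H' e j) := by
  rintro i l h γ a b d ⟨hd, c, hc, x, hx, hex⟩
  obtain ⟨y, hy⟩ := lift_ee U (pA U m) (pA_smul U m) H' hH' h γ a b
  refine ⟨by rw [pA_smul, hd], (e.symm y).1.right • c, by rw [pA_smul, hc],
    e.symm y * x * (e.symm y)⁻¹, ?_, ?_⟩
  · rw [Subgroup.coe_mul, Subgroup.coe_mul, Subgroup.coe_inv, hx, conj_inl,
      gP_phi _ (pA_smul U n)]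
  · rw [map_mul, map_mul, map_inv, MulEquiv.apply_symm_apply, Subgroup.coe_mul, Subgroup.coe_mul,
      Subgroup.coe_inv, hex, conj_inl, gP_phi _ (pA_smul U m), hy]

/-- `n ≤ m` if finite index subgroups of `Gr n` and `Gr m` are isomorphic -/
theorem le_of_equiv (h2R : ∀ r : R, r + r = 0) (hk : Nat.card k = 8) (n m : ℕ)
    (H : Subgroup (Gr U n)) (H' : Subgroup (Gr U m)) (hH : H.index ≠ 0) (hH' : H'.index ≠ 0)
    (e : H ≃* H') : n ≤ m := by
  -- every `gP c`, `c ∈ A p_n`, is sent to some `gP d`, `d ∈ A p_m`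
  have hex : ∀ c, pA U n c = c → ∃ x : H, x.1 = inl (gP _ c) ∧ ∃ d, pA U m d = d ∧
      (e x).1 = inl (gP _ d) := by
    intro c hc
    obtain ⟨q, hq, hqc⟩ := SQ_top U h2R n H hH c
    set y : H := ⟨inl q, hq⟩ with hy
    have h1 : (e y).1.right = 1 := right_one U (pA U n) (pA U m) (pA_smul U n) (pA_smul U m) h2R hk
      H H' hH' e y rfl
    have h2 : (e y).1 = inl (e y).1.left := eq_inl _ _ _ h1
    obtain ⟨d, hd⟩ := sq_Mp (pA U m) (e y).1.left
    refine ⟨y * y, ?_, pA U m d, pA_pA U le_rfl d, ?_⟩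
    · show (inl q * inl q : Gr U n) = _
      rw [← map_mul, hqc, hc]
    · rw [map_mul, Subgroup.coe_mul, h2, ← map_mul, hd]
  refine length_le U m n (WW U n m H H' e) (fun j => WW_inva U n m H H' hH' e j)
    (fun j d hd => hd.1) ?_ ?_
  · rintro j hj d ⟨hd, c, hc, hx⟩
    refine ⟨hd, c, ?_, hx⟩
    rw [← hc]
    exact pA_pA U (Nat.le_succ j) c
  · intro j hj
    set c : V3 R := Pi.single 0 (U.e 0 j) with hc
    have hcj : ∀ l, j < l → pA U l c = c := by
      intro l hl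
      rw [hc, pA_single]
      congr 1
      apply U.ext
      intro r s
      rw [ent_mul_pn, U.ent_e]
      by_cases hs : s < l
      · rw [if_pos hs]
      · rw [if_neg hs, if_neg]
        rintro ⟨_, h⟩
        omega
    obtain ⟨x, hx, d, hd, hxd⟩ := hex c (hcj n hj)
    refine ⟨d, ⟨hd, c, hcj _ (Nat.lt_succ_self j), x, hx, hxd⟩, ?_⟩
    rintro ⟨_, c', hc', x', hx', hxd'⟩
    have h1 : e x = e x' := Subtype.ext (hxd.trans hxd'.symm)
    have h2 := e.injective h1
    rw [← h2, hx] at hx'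
    have h3 : c = c' := gP_inj _ (V3_two' h2R) (inl_injective hx')
    have h4 : pA U j c = c := by rw [h3]; exact hc'
    have h5 := congrArg (fun v : V3 R => U.ent (v 0) 0 j) h4
    simp only [hc, pA_single, Pi.single_eq_same, ent_mul_pn, U.ent_e] at h5
    simp at h5

/-- virtually isomorphic ICC groups have isomorphic finite index subgroups -/
lemma vi_icc {G G' : Type} [Group G] [Group G'] (hG : IsIcc G) (hG' : IsIcc G')
    (h : VirtuallyIsomorphic G G') : ∃ (H : Subgroup G) (H' : Subgroup G'), H.index ≠ 0 ∧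
      H'.index ≠ 0 ∧ Nonempty (H ≃* H') := by
  have hbot : ∀ {G : Type} [Group G], IsIcc G → ∀ F : Subgroup G, F.Normal → Finite F → F = ⊥ := by
    intro G _ hG F hF hfin
    rw [Subgroup.eq_bot_iff_forall]
    intro x hx
    by_contra hne
    apply hG x hne
    refine Set.Finite.subset (Set.toFinite (F : Set G)) ?_
    rintro _ ⟨g, rfl⟩
    exact hF.conj_mem x hx g
  obtain ⟨F, K, hF, hK, hFf, hKf, G₀, H₀, hG₀, hH₀, ⟨e⟩⟩ := h
  have hF0 := hbot hG F hF hFf
  have hK0 := hbot hG' K hK hKf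
  subst hF0
  subst hK0
  refine ⟨G₀.map (QuotientGroup.quotientBot (G := G)).toMonoidHom,
    H₀.map (QuotientGroup.quotientBot (G := G')).toMonoidHom, ?_, ?_, ⟨?_⟩⟩
  · have := Subgroup.index_map_equiv G₀ (QuotientGroup.quotientBot (G := G))
    intro h
    exact hG₀ (this.symm.trans h)
  · have := Subgroup.index_map_equiv H₀ (QuotientGroup.quotientBot (G := G'))
    intro h
    exact hH₀ (this.symm.trans h)
  · exact ((QuotientGroup.quotientBot (G := G)).subgroupMap G₀).symm.trans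
      (e.trans ((QuotientGroup.quotientBot (G := G')).subgroupMap H₀))

end main

end Pool.Agent.H258.CR
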