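import Mathlib
import Pool.Agent.H258.CR.NotVI
import Pool.Agent.H258.CR.Jac

/-!
# The ring of the two shifts as a ring with matrix units; countability
-/

set_option autoImplicit false
set_option linter.unusedSectionVars false

namespace Pool.Agent.H258.CR

open Pool.Agent.H197R3 (closure_countable)
open SemidirectProduct

section inst
variable (k : Type) [Field k]

/-- the ring of the two shifts -/
noncomputable def UJ : MU k (J k) where
  e := e
  ent := ent
  aug := aug
  aug_alg := aug_algebraMap
  e_mul := e_mul
  ent_zero := ent_zero
  ent_add := ent_add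
  ext := J_ext
  ent_finite := ent_finite
  ent_e := ent_e
  ent_e_mul := ent_e_mul
  ent_mul_e := ent_mul_e
  ent_smul := ent_smul
  ent_alg := ent_algebraMap

lemma J_two [CharP k 2] (r : J k) : r + r = 0 := by
  have h : (2 : k) • r = 0 := by
    rw [show (2 : k) = 0 from CharTwo.two_eq_zero, zero_smul]
  rwa [two_smul] at h

instance J_countable [Finite k] : Countable (J k) := by
  rw [← Cardinal.mk_le_aleph0_iff]
  refine (Algebra.cardinalMk_adjoin_le k ({bL k, bR k} : Set (Big k))).trans ?_
  refine sup_le (sup_le ?_ ?_) le_rfl
  · exact Cardinal.mk_le_aleph0_iff.2 inferInstance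
  · exact Cardinal.mk_le_aleph0_iff.2 (Set.toFinite _).countable.to_subtype

end inst

section cnt
variable {R : Type} [Ring R] [Countable R]

instance Lam_countable : Countable (Lam R) := by
  have h1 : Countable (Matrix (Fin 3) (Fin 3) R) :=
    inferInstanceAs (Countable (Fin 3 → Fin 3 → R))
  have h2 : Countable (Matrix (Fin 3) (Fin 3) R)ˣ :=
    (Units.val_injective (α := Matrix (Fin 3) (Fin 3) R)).countable
  exact Subtype.countable

lemma Gp_countable (p : V3 R →+ V3 R) (hp : ∀ (g : Lam R) (a : V3 R), p (g • a) = g • p a) :
    Countable (Gp p hp) := by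
  have h1 : Countable (Mp p) := by
    apply closure_countable
    exact (Set.countable_range _).union (Set.countable_range _)
  exact (SemidirectProduct.equivProd (φ := Pool.Agent.H197R3.phi (Mp p)
    (inv_Mp p hp))).injective.countable

end cnt

end Pool.Agent.H258.CR
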