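import Mathlib
import Pool.Agent.H258.CR.Inst
import Pool.Graph.R_seed8.Y276.Rig.El
import Pool.Graph.R_seed8.Y276.Rig.Stm

/-!
# Infinitely many pairwise not virtually isomorphic groups with property (T) and the same factor
-/

set_option autoImplicit false

namespace Pool.Agent.H258.CR

open Pool.Agent Pool.Agent.Y276.Rig Pool.Agent.H258.CR

theorem main_of {k R : Type} [Field k] [Fintype k] [Ring R] [Algebra k R] [Countable R]
    (U : MU k R) {x y : R} (hgen : Algebra.adjoin k {x, y} = (⊤ : Subalgebra k R))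
    (h2R : ∀ r : R, r + r = 0) (hcard : Nat.card k = 8) :
    ∃ (G : ℕ → Type) (_ : ∀ n, Group (G n)),
      (∀ n, Countable (G n) ∧ IsIcc (G n) ∧ PropertyT (G n)) ∧
      (∀ n m, SameGroupAlgebra (G n) (G m) ∧ SameVN (G n) (G m)) ∧
      ∀ n m, n ≠ m → ¬ VirtuallyIsomorphic (G n) (G m) := by
  have hk : 7 ≤ Fintype.card k := by
    rw [← Nat.card_eq_fintype_card, hcard]; norm_num
  have hicc : ∀ n, IsIcc (Gr U n) := fun n x hx => icc_Gp U (pA U n) h2R hcard _ x hx
  refine ⟨fun n => Gr U n, fun n => inferInstance, fun n => ⟨?_, ?_, ?_⟩,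
    fun n m => ?_, fun n m hnm hvi => ?_⟩
  · exact Gp_countable _ _
  · exact hicc n
  · exact T_Gp _ _ hgen h2R hk
  · let t := Twist.comp (twistP _ (pA_smul U n)) (twistP _ (pA_smul U m))
    refine ⟨⟨algEq t, algEq_trace t, ?_⟩, sameVN t⟩
    intro x y hxy h
    have h1 : y = invo x := by
      apply MonoidAlgebra.ext
      ext g
      rw [hxy, invo_coeff]
    rw [h1, algEq_invo, invo_coeff]
  · obtain ⟨H, H', hH, hH', ⟨e⟩⟩ := vi_icc (hicc n) (hicc m) hvi
    exact hnm (le_antisymm (le_of_equiv _ h2R hcard n m H H' hH hH' e)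
      (le_of_equiv _ h2R hcard m n H' H hH' hH e.symm))

end Pool.Agent.H258.CR
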